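import Mathlib
import Pool.Agent.W526.LL.Stm

/-! Powers of the idele norm of the rational function field over the field with two elements. -/

set_option autoImplicit false

namespace Pool.Agent.W655.LLNorm

open IsDedekindDomain WithZero Polynomial Topology
open Pool.Agent.W526.LL

/-- the residue field at the maximal ideal generated by `P` has `2 ^ deg P` elements -/
theorem qn_some (v : HeightOneSpectrum (ZMod 2)[X]) (P : (ZMod 2)[X]) (hP : P ≠ 0)
    (h : v.asIdeal = Ideal.span {P}) : qn (some v) = 2 ^ P.natDegree := by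
  show Nat.card ((ZMod 2)[X] ⧸ v.asIdeal) = _
  rw [h]
  change Nat.card (AdjoinRoot P) = _
  have hfin : Module.Finite (ZMod 2) (AdjoinRoot P) := (AdjoinRoot.powerBasis hP).finite
  rw [Module.natCard_eq_pow_finrank (K := ZMod 2), Nat.card_zmod]
  congr 1
  rw [(AdjoinRoot.powerBasis hP).finrank, AdjoinRoot.powerBasis_dim]

theorem exists_gen (v : HeightOneSpectrum (ZMod 2)[X]) :
    ∃ P : (ZMod 2)[X], P ≠ 0 ∧ v.asIdeal = Ideal.span {P} := by
  obtain ⟨P, hP⟩ := (IsPrincipalIdealRing.principal v.asIdeal).principal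
  rw [← Ideal.span] at hP
  refine ⟨P, ?_, hP⟩
  rintro rfl
  apply v.ne_bot
  rw [hP, Ideal.span_singleton_eq_bot]

theorem qn_pos (p : Pl) : 0 < qn p := by
  rcases p with _ | v
  · show 0 < 2; norm_num
  · obtain ⟨P, hP, h⟩ := exists_gen v
    rw [qn_some v P hP h]
    positivity

theorem nrm_pos (p : Pl) (x : (Kv p)ˣ) : 0 < nrm p x := by
  have : (0 : ℝ) < qn p := by exact_mod_cast qn_pos p
  exact zpow_pos this _

theorem v_ne (p : Pl) (x : (Kv p)ˣ) : Valued.v (x : Kv p) ≠ (0 : ℤᵐ⁰) := by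
  rw [Valuation.ne_zero_iff]
  exact x.ne_zero

theorem nrm_mul (p : Pl) (x y : (Kv p)ˣ) : nrm p (x * y) = nrm p x * nrm p y := by
  have : (qn p : ℝ) ≠ 0 := by exact_mod_cast (qn_pos p).ne'
  rw [nrm, nrm, nrm, Units.val_mul, map_mul, log_mul (v_ne p x) (v_ne p y), zpow_add₀ this]

theorem nrm_of_one (p : Pl) (x : (Kv p)ˣ) (h : Valued.v (x : Kv p) = (1 : ℤᵐ⁰)) : nrm p x = 1 := by
  rw [nrm, h, log_one, zpow_zero]

/-- the powers of the local norm -/
noncomputable def chi (s : ℝ) (p : Pl) : (Kv p)ˣ →* ℂˣ :=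
  MonoidHom.toHomUnits
    { toFun := fun x => ((nrm p x ^ s : ℝ) : ℂ)
      map_one' := by
        rw [nrm_of_one p 1 (by rw [Units.val_one, map_one]), Real.one_rpow, Complex.ofReal_one]
      map_mul' := by
        intro x y
        rw [nrm_mul, Real.mul_rpow (nrm_pos p x).le (nrm_pos p y).le, Complex.ofReal_mul] }

theorem chi_apply (s : ℝ) (p : Pl) (x : (Kv p)ˣ) : (chi s p x : ℂ) = ((nrm p x ^ s : ℝ) : ℂ) := rfl

theorem chi_one (s : ℝ) (p : Pl) (x : (Kv p)ˣ) (h : Valued.v (x : Kv p) = (1 : ℤᵐ⁰)) : chi s p x = 1 := by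
  apply Units.ext
  rw [chi_apply, nrm_of_one p x h, Real.one_rpow, Complex.ofReal_one, Units.val_one]

/-- the kernel of `chi` contains the open subgroup of units -/
noncomputable def unitsAt (p : Pl) : Subgroup (Kv p)ˣ where
  carrier := {x | Valued.v (x : Kv p) = (1 : ℤᵐ⁰)}
  mul_mem' := by
    intro a b ha hb
    have ha' : Valued.v (a : Kv p) = (1 : ℤᵐ⁰) := ha
    have hb' : Valued.v (b : Kv p) = (1 : ℤᵐ⁰) := hb
    show Valued.v ((a * b : (Kv p)ˣ) : Kv p) = (1 : ℤᵐ⁰)
    rw [Units.val_mul, map_mul, ha', hb', one_mul]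
  one_mem' := by
    show Valued.v ((1 : (Kv p)ˣ) : Kv p) = (1 : ℤᵐ⁰)
    rw [Units.val_one, map_one]
  inv_mem' := by
    intro a ha
    have ha' : Valued.v (a : Kv p) = (1 : ℤᵐ⁰) := ha
    show Valued.v ((a⁻¹ : (Kv p)ˣ) : Kv p) = (1 : ℤᵐ⁰)
    rw [Units.val_inv_eq_inv_val, map_inv₀, ha', inv_one]

theorem unitsAt_open (p : Pl) : IsOpen (unitsAt p : Set (Kv p)ˣ) := by
  apply Subgroup.isOpen_of_mem_nhds _ (g := 1)
  have h1 : {y : Kv p | Valued.v y = (1 : ℤᵐ⁰)} ∈ 𝓝 (1 : Kv p) := by
    have h0 : {z : Kv p | Valued.v z < (1 : ℤᵐ⁰)} ∈ 𝓝 (0 : Kv p) :=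
      mem_nhds_of_ball (n := 0) (a := (1 : Kv p)) (by rw [map_one, exp_zero]) (by rw [exp_zero])
    have hc : Filter.Tendsto (fun y : Kv p => y - 1) (𝓝 1) (𝓝 0) := by
      have h : Filter.Tendsto (fun y : Kv p => y - 1) (𝓝 1) (𝓝 ((1 : Kv p) - 1)) :=
        (continuous_id.sub continuous_const).tendsto (1 : Kv p)
      rwa [sub_self] at h
    refine Filter.mem_of_superset (hc h0) ?_
    intro y hy
    have hy' : Valued.v (y - 1) < (1 : ℤᵐ⁰) := hy
    have h2 := Valuation.map_one_add_of_lt Valued.v hy'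
    rw [add_sub_cancel] at h2
    exact h2
  have h2 : Filter.Tendsto (fun u : (Kv p)ˣ => (u : Kv p)) (𝓝 1) (𝓝 (1 : Kv p)) :=
    Units.continuous_val.tendsto 1
  have h3 := h2 h1
  refine Filter.mem_of_superset h3 ?_
  intro u hu
  exact hu

/-- the local value at `a` -/
noncomputable def loc (s : ℝ) (a : KKˣ) (p : Pl) : ℂˣ :=
  chi s p (Units.map (algebraMap KK (Kv p)).toMonoidHom a)

theorem loc_mul (s : ℝ) (a b : KKˣ) (p : Pl) : loc s (a * b) p = loc s a p * loc s b p := by
  rw [loc, map_mul, map_mul]; rfl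

theorem loc_inv (s : ℝ) (a : KKˣ) (p : Pl) : loc s a⁻¹ p = (loc s a p)⁻¹ := by
  rw [loc, map_inv, map_inv]; rfl

theorem loc_one_of (s : ℝ) (a : KKˣ) (p : Pl) (h : Valued.v (cmap p a) = (1 : ℤᵐ⁰)) : loc s a p = 1 :=
  chi_one s p _ h

theorem finite_supp (hpol : S_pol) (s : ℝ) (a : KKˣ) : (Function.mulSupport (loc s a)).Finite := by
  have h := hpol.2.2.2.1 (a : KK) a.ne_zero
  refine ((h.image some).union (Set.finite_singleton none)).subset ?_
  intro p hp
  rcases p with _ | v
  · right; rfl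
  · left
    refine ⟨v, ?_, rfl⟩
    intro hv
    exact hp (loc_one_of s a (some v) hv)

/-- the product of the local values -/
noncomputable def glo (s : ℝ) (a : KKˣ) : ℂˣ := ∏ᶠ p, loc s a p

theorem glo_mul (hpol : S_pol) (s : ℝ) (a b : KKˣ) : glo s (a * b) = glo s a * glo s b := by
  rw [glo, glo, glo, ← finprod_mul_distrib (finite_supp hpol s a) (finite_supp hpol s b)]
  apply finprod_congr
  intro p
  exact loc_mul s a b p

theorem glo_one (s : ℝ) : glo s 1 = 1 := by
  rw [glo]
  apply finprod_eq_one_of_forall_eq_one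
  intro p
  rw [loc, map_one, map_one]

theorem ofPoly_ne (P : (ZMod 2)[X]) (hP : P ≠ 0) : ofPoly P ≠ 0 := by
  intro h
  apply hP
  apply RatFunc.algebraMap_injective (ZMod 2)
  rw [map_zero]
  exact h

theorem isUnit_one (P : (ZMod 2)[X]) (h : IsUnit P) : P = 1 := by
  obtain ⟨r, hr, rfl⟩ := Polynomial.isUnit_iff.1 h
  have h2 : ∀ z : ZMod 2, z ≠ 0 → z = 1 := by decide
  rw [h2 r hr.ne_zero, map_one]

theorem glo_irred (s : ℝ) (P : (ZMod 2)[X]) (hP : Irreducible P) :
    glo s (Units.mk0 (ofPoly P) (ofPoly_ne P hP.ne_zero)) = 1 := by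
  have hP0 := hP.ne_zero
  set a : KKˣ := Units.mk0 (ofPoly P) (ofPoly_ne P hP0) with ha
  let v : HeightOneSpectrum (ZMod 2)[X] :=
    ⟨Ideal.span {P}, (Ideal.span_singleton_prime hP0).mpr hP.prime, by
      rw [ne_eq, Ideal.span_singleton_eq_bot]; exact hP0⟩
  have hsup : Function.mulSupport (loc s a) ⊆ (({none, some v} : Finset Pl) : Set Pl) := by
    intro p hp
    rcases p with _ | w
    · simp
    · by_cases hw : w = v
      · simp [hw]
      · exfalso
        apply hp
        apply loc_one_of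
        show Valued.v (cmap (some w) (ofPoly P)) = 1
        rw [v_fin, HeightOneSpectrum.valuation_of_algebraMap]
        have hle := w.intValuation_le_one P
        rcases lt_or_eq_of_le hle with hlt | heq
        · exfalso
          rw [HeightOneSpectrum.intValuation_lt_one_iff_mem] at hlt
          apply hw
          apply HeightOneSpectrum.ext
          have hvm : v.asIdeal.IsMaximal := v.isMaximal
          have hle2 : v.asIdeal ≤ w.asIdeal := by
            show Ideal.span {P} ≤ w.asIdeal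
            rw [Ideal.span_singleton_le_iff_mem]
            exact hlt
          exact (hvm.eq_of_le w.isPrime.ne_top hle2).symm
        · exact heq
  rw [glo, finprod_eq_prod_of_mulSupport_subset _ hsup]
  rw [Finset.prod_pair (by simp)]
  apply Units.ext
  rw [Units.val_mul, Units.val_one, loc, loc, chi_apply, chi_apply, ← Complex.ofReal_mul,
    ← Real.mul_rpow (nrm_pos _ _).le (nrm_pos _ _).le]
  have e1 : nrm none (Units.map (algebraMap KK (Kv none)).toMonoidHom a) = 2 ^ (P.natDegree : ℤ) := by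
    have h1 : Valued.v (cmap none (ofPoly P)) = exp (P.natDegree : ℤ) := by
      rw [v_inf, RatFunc.inftyValuation_of_nonzero _ (ofPoly_ne P hP0), RatFunc.intDegree_polynomial]
    show ((2 : ℕ) : ℝ) ^ (WithZero.log (Valued.v (cmap none (ofPoly P)))) = _
    rw [h1, log_exp]
    norm_num
  have e2 : nrm (some v) (Units.map (algebraMap KK (Kv (some v))).toMonoidHom a) =
      (2 ^ P.natDegree : ℝ) ^ (-1 : ℤ) := by
    have h1 : Valued.v (cmap (some v) (ofPoly P)) = exp (-1 : ℤ) := by
      rw [v_fin, HeightOneSpectrum.valuation_of_algebraMap]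
      exact v.intValuation_singleton hP0 rfl
    show (qn (some v) : ℝ) ^ (WithZero.log (Valued.v (cmap (some v) (ofPoly P)))) = _
    rw [h1, log_exp, qn_some v P hP0 rfl]
    push_cast
    rfl
  rw [e1, e2, zpow_natCast, zpow_neg_one, mul_inv_cancel₀ (by positivity), Real.one_rpow,
    Complex.ofReal_one]

theorem glo_poly (hpol : S_pol) (s : ℝ) (P : (ZMod 2)[X]) :
    ∀ hP : P ≠ 0, glo s (Units.mk0 (ofPoly P) (ofPoly_ne P hP)) = 1 := by
  induction P using WfDvdMonoid.induction_on_irreducible with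
  | zero => intro h; exact absurd rfl h
  | unit u hu =>
    intro h
    have : Units.mk0 (ofPoly u) (ofPoly_ne u h) = 1 := by
      apply Units.ext
      rw [Units.val_mk0, isUnit_one u hu, Units.val_one]
      exact map_one _
    rw [this, glo_one]
  | mul a i ha hi ih =>
    intro h
    have : Units.mk0 (ofPoly (i * a)) (ofPoly_ne _ h) =
        Units.mk0 (ofPoly i) (ofPoly_ne i hi.ne_zero) * Units.mk0 (ofPoly a) (ofPoly_ne a ha) := by
      apply Units.ext
      rw [Units.val_mk0, Units.val_mul, Units.val_mk0, Units.val_mk0]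
      exact map_mul _ _ _
    rw [this, glo_mul hpol, glo_irred s i hi, ih ha, one_mul]

theorem glo_all (hpol : S_pol) (s : ℝ) (a : KKˣ) : glo s a = 1 := by
  have hn : (a : KK).num ≠ 0 := by
    rw [ne_eq, RatFunc.num_eq_zero_iff]; exact a.ne_zero
  have hd : (a : KK).denom ≠ 0 := RatFunc.denom_ne_zero _
  have h : a * Units.mk0 (ofPoly (a : KK).denom) (ofPoly_ne _ hd) =
      Units.mk0 (ofPoly (a : KK).num) (ofPoly_ne _ hn) := by
    apply Units.ext
    rw [Units.val_mul, Units.val_mk0, Units.val_mk0]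
    have h2 := RatFunc.num_div_denom (a : KK)
    rw [div_eq_iff (ofPoly_ne _ hd)] at h2
    exact h2.symm
  have h3 := congrArg (glo s) h
  rw [glo_mul hpol, glo_poly hpol s _ hd, glo_poly hpol s _ hn, mul_one] at h3
  exact h3

theorem main (hpol : S_pol) : S_norm := by
  intro s
  refine ⟨⟨chi s, ?_, ?_, ?_⟩, ?_⟩
  · intro p
    exact ⟨unitsAt p, unitsAt_open p, fun u hu => chi_one s p u hu⟩
  · exact Filter.Eventually.of_forall fun p u hu => chi_one s p u hu
  · intro a
    exact glo_all hpol s a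
  · intro p x
    exact chi_apply s p x

end Pool.Agent.W655.LLNorm
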