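import Pool.Agent.W979.TE.Defs3
import Pool.Agent.W715.BC.Tools

/-!
# TE3-CORE: assembly of the core theorem for star-type trees T_(s,q,q)
-/

set_option autoImplicit false

open Classical

namespace Pool.Agent.W655.TE3

open Pool.Agent.W715.BC Pool.Agent.W979.TE3

section
variable {A B : Type} {s q : ℕ}

/-- centres and connectors of a copy -/
noncomputable def supp (z : Cop A B s q) : Finset (A ⊕ B) :=
  (Finset.univ.image (fun x => Sum.inl (z.1 x))) ∪
    ((Finset.univ.image (fun i => Sum.inr (z.2.2.1 i))) ∪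
      (Finset.univ.image (fun p : Option (Fin s) × Fin q => Sum.inr (z.2.2.2 p.1 p.2))))

lemma supp_card (z : Cop A B s q) : (supp z).card ≤ s + 1 + hh s q := by
  unfold supp hh
  have h1 : (Finset.univ.image (fun x => (Sum.inl (z.1 x) : A ⊕ B))).card ≤ s + 1 := by
    refine Finset.card_image_le.trans ?_
    simp
  have h2 : (Finset.univ.image (fun i => (Sum.inr (z.2.2.1 i) : A ⊕ B))).card ≤ s := by
    refine Finset.card_image_le.trans ?_
    simp
  have h3 : (Finset.univ.image (fun p : Option (Fin s) × Fin q =>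
      (Sum.inr (z.2.2.2 p.1 p.2) : A ⊕ B))).card ≤ (s + 1) * q := by
    refine Finset.card_image_le.trans ?_
    simp
  have h4 := Finset.card_union_le (Finset.univ.image (fun i => (Sum.inr (z.2.2.1 i) : A ⊕ B)))
    (Finset.univ.image (fun p : Option (Fin s) × Fin q => (Sum.inr (z.2.2.2 p.1 p.2) : A ⊕ B)))
  refine (Finset.card_union_le _ _).trans ?_
  omega

lemma mem_supp (z : Cop A B s q) (v : A ⊕ B) : v ∈ supp z ↔
    (∃ x, Sum.inl (z.1 x) = v) ∨ (∃ i, Sum.inr (z.2.2.1 i) = v) ∨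
      ∃ p : Option (Fin s) × Fin q, Sum.inr (z.2.2.2 p.1 p.2) = v := by
  unfold supp
  simp only [Finset.mem_union, Finset.mem_image, Finset.mem_univ, true_and]

/-- disjoint copies with the same roots form a blowup -/
lemma sblow_of [Fintype A] [Fintype B] {t : ℕ} (ht : 0 < t) (r : A → B → Prop) (L M1 : ℕ)
    (ρ : Option (Fin s) → Fin q → A) (f : Fin t → Cop A B s q)
    (hf : ∀ j, CC r L M1 (f j) ∧ (f j).2.1 = ρ)
    (hd : ∀ i j, i ≠ j → Disjoint (supp (f i)) (supp (f j))) : SBlow r s q t := by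
  refine ⟨fun j x => (f j).1 x, ρ, fun j i => (f j).2.2.1 i, fun j x l => (f j).2.2.2 x l,
    ?_, ?_, ?_, ?_, ?_, ?_, ?_, ?_⟩
  · intro j i
    exact (hf j).1.1.1 i
  · intro j i
    exact (hf j).1.1.2.1 i
  · intro j x l
    exact (hf j).1.1.2.2.1 x l
  · intro j x l
    have := (hf j).1.1.2.2.2 x l
    rwa [(hf j).2] at this
  · rintro ⟨j, x⟩ ⟨j', x'⟩ h
    simp only at h
    by_cases hj : j = j'
    · subst hj
      have := (hf j).1.2.1.1 h
      rw [this]
    · exfalso
      refine Finset.disjoint_left.1 (hd j j' hj)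
        (show (Sum.inl ((f j).1 x) : A ⊕ B) ∈ supp (f j) from ?_) ?_
      · rw [mem_supp]; exact Or.inl ⟨x, rfl⟩
      · rw [mem_supp]; exact Or.inl ⟨x', by rw [h]⟩
  · have := (hf ⟨0, ht⟩).1.2.1.2.1
    rwa [(hf ⟨0, ht⟩).2] at this
  · intro j x x' l
    have := (hf j).1.2.1.2.2.1 x x' l
    rwa [(hf j).2] at this
  · rintro ⟨j, c⟩ ⟨j', c'⟩ h
    simp only at h
    by_cases hj : j = j'
    · subst hj
      have := (hf j).1.2.1.2.2.2 h
      rw [this]
    · exfalso
      refine Finset.disjoint_left.1 (hd j j' hj) (show (Sum.inr (Sum.elim (f j).2.2.1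
        (fun p : Option (Fin s) × Fin q => (f j).2.2.2 p.1 p.2) c) : A ⊕ B) ∈ supp (f j) from ?_) ?_
      · rw [mem_supp]
        rcases c with i | p
        · exact Or.inr (Or.inl ⟨i, rfl⟩)
        · exact Or.inr (Or.inr ⟨p, rfl⟩)
      · rw [mem_supp]
        have h' : Sum.elim (f j).2.2.1 (fun p : Option (Fin s) × Fin q => (f j).2.2.2 p.1 p.2) c =
          Sum.elim (f j').2.2.1 (fun p : Option (Fin s) × Fin q => (f j').2.2.2 p.1 p.2) c' := h
        rw [h']
        rcases c' with i | p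
        · exact Or.inr (Or.inl ⟨i, rfl⟩)
        · exact Or.inr (Or.inr ⟨p, rfl⟩)

/-- counting: number of clean copies if there is no blowup -/
lemma count [Fintype A] [Fintype B] [Nonempty A] [Nonempty B] {t : ℕ} (ht : 0 < t)
    (r : A → B → Prop) (L M1 : ℕ) (hno : ¬ SBlow r s q t) :
    ∃ (uf : (Option (Fin s) → Fin q → A) → A) (yf : (Option (Fin s) → Fin q → A) → B),
    (Finset.univ.filter (fun z : Cop A B s q => CC r L M1 z)).card ≤
      ((s + 1 + hh s q) * t) *
        (∑ x : Option (Fin s), (Finset.univ.filter (fun z : Cop A B s q =>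
            CC r L M1 z ∧ z.1 x = uf z.2.1)).card +
          (∑ i : Fin s, (Finset.univ.filter (fun z : Cop A B s q =>
            CC r L M1 z ∧ z.2.2.1 i = yf z.2.1)).card +
          ∑ p : Option (Fin s) × Fin q, (Finset.univ.filter (fun z : Cop A B s q =>
            CC r L M1 z ∧ z.2.2.2 p.1 p.2 = yf z.2.1)).card)) := by
  obtain ⟨a0⟩ := ‹Nonempty A›
  obtain ⟨b0⟩ := ‹Nonempty B›
  set F : Finset (Cop A B s q) := Finset.univ.filter (fun z : Cop A B s q => CC r L M1 z) with hF
  have hv : ∀ ρ : Option (Fin s) → Fin q → A, ∃ v : A ⊕ B,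
      (F.filter (fun z => z.2.1 = ρ)).card ≤ ((s + 1 + hh s q) * t) *
        ((F.filter (fun z => z.2.1 = ρ)).filter (fun z => v ∈ supp z)).card := by
    intro ρ
    by_cases hne : (F.filter (fun z => z.2.1 = ρ)).Nonempty
    · refine cover _ supp _ t (fun z _ => supp_card z) hne ?_
      rintro ⟨f, hf, hd⟩
      refine hno (sblow_of ht r L M1 ρ f (fun j => ?_) hd)
      have := hf j
      rw [hF] at this
      simpa using this
    · rw [Finset.not_nonempty_iff_eq_empty] at hne
      exact ⟨Sum.inl a0, by rw [hne]; simp⟩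
  choose v hv using hv
  refine ⟨fun ρ => Sum.elim id (fun _ => a0) (v ρ), fun ρ => Sum.elim (fun _ => b0) id (v ρ), ?_⟩
  have h1 : F.card = ∑ ρ : Option (Fin s) → Fin q → A, (F.filter (fun z => z.2.1 = ρ)).card :=
    Finset.card_eq_sum_card_fiberwise (f := fun z : Cop A B s q => z.2.1) (t := Finset.univ)
      (by intro x _; simp)
  have h2 : (F.filter (fun z => v z.2.1 ∈ supp z)).card =
      ∑ ρ : Option (Fin s) → Fin q → A,
        ((F.filter (fun z => z.2.1 = ρ)).filter (fun z => v ρ ∈ supp z)).card := by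
    rw [Finset.card_eq_sum_card_fiberwise (f := fun z : Cop A B s q => z.2.1) (t := Finset.univ)
      (by intro x _; simp)]
    refine Finset.sum_congr rfl fun ρ _ => ?_
    congr 1
    ext z
    simp only [Finset.mem_filter]
    constructor
    · rintro ⟨⟨h1, h2⟩, h3⟩
      exact ⟨⟨h1, h3⟩, by rw [← h3]; exact h2⟩
    · rintro ⟨⟨h1, h3⟩, h2⟩
      exact ⟨⟨h1, by rw [h3]; exact h2⟩, h3⟩
  have h3 : F.card ≤ ((s + 1 + hh s q) * t) * (F.filter (fun z => v z.2.1 ∈ supp z)).card := by
    rw [h1, h2, Finset.mul_sum]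
    exact Finset.sum_le_sum fun ρ _ => hv ρ
  refine h3.trans (Nat.mul_le_mul_left _ ?_)
  have hsub : F.filter (fun z => v z.2.1 ∈ supp z) ⊆
      (Finset.univ.biUnion (fun x : Option (Fin s) => Finset.univ.filter (fun z : Cop A B s q =>
            CC r L M1 z ∧ z.1 x = Sum.elim id (fun _ => a0) (v z.2.1)))) ∪
      ((Finset.univ.biUnion (fun i : Fin s => Finset.univ.filter (fun z : Cop A B s q =>
            CC r L M1 z ∧ z.2.2.1 i = Sum.elim (fun _ => b0) id (v z.2.1)))) ∪
      (Finset.univ.biUnion (fun p : Option (Fin s) × Fin q => Finset.univ.filter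
        (fun z : Cop A B s q =>
            CC r L M1 z ∧ z.2.2.2 p.1 p.2 = Sum.elim (fun _ => b0) id (v z.2.1))))) := by
    intro z hz
    rw [Finset.mem_filter, hF, Finset.mem_filter] at hz
    obtain ⟨⟨_, hcc⟩, hz⟩ := hz
    rw [mem_supp] at hz
    simp only [Finset.mem_union, Finset.mem_biUnion, Finset.mem_univ, true_and, Finset.mem_filter]
    rcases hz with ⟨x, hx⟩ | ⟨i, hi⟩ | ⟨p, hp⟩
    · exact Or.inl ⟨x, hcc, by rw [← hx]; rfl⟩
    · exact Or.inr (Or.inl ⟨i, hcc, by rw [← hi]; rfl⟩)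
    · exact Or.inr (Or.inr ⟨p, hcc, by rw [← hp]; rfl⟩)
  refine (Finset.card_le_card hsub).trans ?_
  refine (Finset.card_union_le _ _).trans (Nat.add_le_add Finset.card_biUnion_le ?_)
  exact (Finset.card_union_le _ _).trans (Nat.add_le_add Finset.card_biUnion_le
    Finset.card_biUnion_le)

end

theorem core3 : S_E3 → S_U → S_G → S_B → S_CORE3 := by
  intro hE3 hU hG hB s q t K hs hq ht hK
  obtain ⟨M1, C1, hE3⟩ := hE3 s q t K hs hq ht hK
  set m : ℝ := (((s + 1 + hh s q) * t : ℕ) : ℝ) with hm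
  set h : ℝ := (hh s q : ℝ) with hh'
  have hhpos : 0 < hh s q := by unfold hh; omega
  have hmpos : 0 < m := by rw [hm]; exact_mod_cast (by positivity)
  have hhp : 0 < h := by rw [hh']; exact_mod_cast hhpos
  set ε : ℝ := 1 / (8 * m * h) with hε
  have hεpos : 0 < ε := by positivity
  obtain ⟨CG, hG⟩ := hG s q t K M1 ε hs (by omega) ht hK hεpos
  obtain ⟨CB, hB⟩ := hB s q t K M1 ε hs (by omega) ht hK hεpos
  set E : ℝ := (s + 1) * (M1 ^ s * (LT s q t) ^ hh s q : ℕ) + (s * |CB| + (s + 1) * q * |CG|) with hE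
  have hE0 : 0 ≤ E := by positivity
  refine ⟨max 1 (max (|C1|) (max (|CG|) (max (|CB|) (8 * m * E)))), ?_⟩
  intro A B _ _ _ r D hreg hD h3 hq1 hmain
  set C : ℝ := max 1 (max (|C1|) (max (|CG|) (max (|CB|) (8 * m * E)))) with hC
  have c1 : 1 ≤ C := le_max_left _ _
  have c2 : C1 ≤ C := (le_abs_self _).trans ((le_max_left _ _).trans (le_max_right _ _))
  have c3 : CG ≤ C := (le_abs_self _).trans ((le_max_left _ _).trans
    ((le_max_right _ _).trans (le_max_right _ _)))
  have c4 : CB ≤ C := (le_abs_self _).trans ((le_max_left _ _).trans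
    ((le_max_right _ _).trans ((le_max_right _ _).trans (le_max_right _ _))))
  have c5 : 8 * m * E ≤ C := (le_max_right _ _).trans
    ((le_max_right _ _).trans ((le_max_right _ _).trans (le_max_right _ _)))
  by_contra hno
  have hA : (1 : ℝ) ≤ Fintype.card A := by
    exact_mod_cast Fintype.card_pos
  have hA0 : (0 : ℝ) < Fintype.card A := by linarith
  have hD1 : (1 : ℝ) ≤ D := c1.trans hD
  have hD0 : (0 : ℝ) < D := by linarith
  have hBne : Nonempty B := by
    obtain ⟨a0⟩ := ‹Nonempty A›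
    have h1 := hreg.la a0
    have h2 : 0 < D := by exact_mod_cast hD0
    have h3 : 0 < deg1 r a0 := by omega
    obtain ⟨b, _⟩ := Finset.card_pos.1 h3
    exact ⟨b⟩
  have e1 := hE3 A B r D hreg (c2.trans hD) ((mul_le_mul_of_nonneg_right c2 (by positivity)).trans hq1)
    hno
  obtain ⟨uf, yf, e2⟩ := count ht r (LT s q t) M1 hno
  have e3 : ∀ x, ((Finset.univ.filter (fun z : Cop A B s q => CC r (LT s q t) M1 z ∧
      z.1 x = uf z.2.1)).card : ℝ) ≤
      (M1 ^ s * (LT s q t) ^ hh s q : ℕ) * (Fintype.card A : ℝ) ^ ((s + 1) * q) := by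
    intro x
    exact_mod_cast hU s q (LT s q t) M1 A B r x uf
  have e4 : ∀ i, ((Finset.univ.filter (fun z : Cop A B s q => CC r (LT s q t) M1 z ∧
      z.2.2.1 i = yf z.2.1)).card : ℝ) ≤ ε * (Fintype.card A : ℝ) * (D : ℝ) ^ (2 * hh s q) +
        |CB| * (Fintype.card A : ℝ) ^ ((s + 1) * q) := by
    intro i
    refine (hB A B r D i yf hreg (c4.trans hD)
      ((mul_le_mul_of_nonneg_right c4 (by positivity)).trans h3) hno).trans ?_
    have := le_abs_self CB
    gcongr
  have e5 : ∀ p : Option (Fin s) × Fin q,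
      ((Finset.univ.filter (fun z : Cop A B s q => CC r (LT s q t) M1 z ∧
      z.2.2.2 p.1 p.2 = yf z.2.1)).card : ℝ) ≤ ε * (Fintype.card A : ℝ) * (D : ℝ) ^ (2 * hh s q) +
        |CG| * (Fintype.card A : ℝ) ^ ((s + 1) * q) := by
    intro p
    refine (hG A B r D p.1 p.2 yf hreg (c3.trans hD)
      ((mul_le_mul_of_nonneg_right c3 (by positivity)).trans h3) hno).trans ?_
    have := le_abs_self CG
    gcongr
  have e6 : ((Finset.univ.filter (fun z : Cop A B s q => CC r (LT s q t) M1 z)).card : ℝ) ≤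
      m * ((s + 1) * ((M1 ^ s * (LT s q t) ^ hh s q : ℕ) * (Fintype.card A : ℝ) ^ ((s + 1) * q)) +
        (s * (ε * (Fintype.card A : ℝ) * (D : ℝ) ^ (2 * hh s q) +
          |CB| * (Fintype.card A : ℝ) ^ ((s + 1) * q)) +
        ((s + 1) * q) * (ε * (Fintype.card A : ℝ) * (D : ℝ) ^ (2 * hh s q) +
          |CG| * (Fintype.card A : ℝ) ^ ((s + 1) * q)))) := by
    have e2' : ((Finset.univ.filter (fun z : Cop A B s q => CC r (LT s q t) M1 z)).card : ℝ) ≤
      m * (∑ x : Option (Fin s), ((Finset.univ.filter (fun z : Cop A B s q =>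
            CC r (LT s q t) M1 z ∧ z.1 x = uf z.2.1)).card : ℝ) +
          (∑ i : Fin s, ((Finset.univ.filter (fun z : Cop A B s q =>
            CC r (LT s q t) M1 z ∧ z.2.2.1 i = yf z.2.1)).card : ℝ) +
          ∑ p : Option (Fin s) × Fin q, ((Finset.univ.filter (fun z : Cop A B s q =>
            CC r (LT s q t) M1 z ∧ z.2.2.2 p.1 p.2 = yf z.2.1)).card : ℝ))) := by
      rw [hm]
      exact_mod_cast e2
    refine e2'.trans (mul_le_mul_of_nonneg_left ?_ hmpos.le)
    refine add_le_add ?_ (add_le_add ?_ ?_)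
    · refine (Finset.sum_le_sum fun x _ => e3 x).trans (le_of_eq ?_)
      simp
    · refine (Finset.sum_le_sum fun x _ => e4 x).trans (le_of_eq ?_)
      rw [Finset.sum_const, Finset.card_univ, nsmul_eq_mul, Fintype.card_fin]
    · refine (Finset.sum_le_sum fun x _ => e5 x).trans (le_of_eq ?_)
      rw [Finset.sum_const, Finset.card_univ, nsmul_eq_mul, Fintype.card_prod, Fintype.card_option,
        Fintype.card_fin, Fintype.card_fin]
      push_cast
      ring
  -- numerical conclusion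
  have hpow : (Fintype.card A : ℝ) ^ ((s + 1) * q) =
      (Fintype.card A : ℝ) * (Fintype.card A : ℝ) ^ ((s + 1) * q - 1) := by
    rw [← pow_succ']
    congr 1
    have : 1 ≤ (s + 1) * q := by nlinarith
    omega
  set P : ℝ := (Fintype.card A : ℝ) ^ ((s + 1) * q) with hP
  set T : ℝ := (Fintype.card A : ℝ) * (D : ℝ) ^ (2 * hh s q) with hT
  have hTpos : 0 < T := by positivity
  have hP0 : 0 ≤ P := by positivity
  have e7 : 8 * m * E * P ≤ T := by
    calc 8 * m * E * P ≤ C * P := by gcongr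
      _ = (Fintype.card A : ℝ) * (C * (Fintype.card A : ℝ) ^ ((s + 1) * q - 1)) := by
        rw [hpow]; ring
      _ ≤ T := by rw [hT]; gcongr
  have e8 : m * h * ε = 1 / 8 := by
    rw [hε]; field_simp
  have e9 : h = s + (s + 1) * q := by rw [hh']; unfold hh; push_cast; ring
  have e10 : m * ((s + 1) * ((M1 ^ s * (LT s q t) ^ hh s q : ℕ) * P) +
        (s * (ε * (Fintype.card A : ℝ) * (D : ℝ) ^ (2 * hh s q) + |CB| * P) +
        ((s + 1) * q) * (ε * (Fintype.card A : ℝ) * (D : ℝ) ^ (2 * hh s q) + |CG| * P))) =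
        (m * h * ε) * T + m * E * P := by
    rw [e9, hE, hT]
    ring
  rw [e10, e8] at e6
  have e11 : (1 / 2 : ℝ) * T ≤ 1 / 8 * T + m * E * P := by
    refine le_trans ?_ e6
    rw [hT, ← mul_assoc]
    exact e1
  linarith

end Pool.Agent.W655.TE3
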