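import Mathlib
import Pool.Agent.W744.SF.Stubs

set_option autoImplicit false

/-!
Fourier data of exp (i z (cos (2 pi x) + sin (4 pi x))).
-/

namespace Pool.Agent.W655.SF3

open MeasureTheory AddCircle
open Pool.Agent.W744.SF

abbrev Ci := AddCircle (1 : ℝ)

lemma integ (n : ℤ) (f : C(Ci, ℂ)) :
    Integrable (fun t : Ci => fourier (-n) t • f t) (haarAddCircle : Measure Ci) := by
  apply Continuous.integrable_of_hasCompactSupport
  · exact (map_continuous (fourier (-n))).smul (map_continuous f)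
  · exact HasCompactSupport.of_compactSpace _

/-- the Fourier coefficient as a linear map -/
noncomputable def L (n : ℤ) : C(Ci, ℂ) →ₗ[ℂ] ℂ where
  toFun f := fourierCoeff f n
  map_add' f g := by
    simp only [fourierCoeff, ContinuousMap.add_apply, smul_add]
    exact integral_add (integ n f) (integ n g)
  map_smul' a f := by
    simp only [fourierCoeff, ContinuousMap.smul_apply, RingHom.id_apply]
    rw [← integral_smul]
    congr 1
    ext t
    rw [smul_comm]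

lemma L_apply (n : ℤ) (f : C(Ci, ℂ)) : L n f = fourierCoeff f n := rfl

lemma L_norm (n : ℤ) (f : C(Ci, ℂ)) (B : ℝ) (hB : ∀ t, ‖f t‖ ≤ B) : ‖L n f‖ ≤ B := by
  rw [L_apply, fourierCoeff]
  have h := norm_integral_le_of_norm_le_const (μ := (haarAddCircle : Measure Ci))
    (f := fun t : Ci => fourier (-n) t • f t) (C := B) (by
      filter_upwards with t
      rw [norm_smul, fourier_apply, Circle.norm_coe, one_mul]
      exact hB t)
  simpa using h

lemma L_fourier (n k : ℤ) : L n (fourier k) = if k = n then 1 else 0 := by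
  rw [L_apply, fourierCoeff]
  simp only [smul_eq_mul, ← fourier_add]
  split_ifs with h
  · simp [h]
  · have hij : -n + k ≠ 0 := by omega
    exact integral_eq_zero_of_add_right_eq_neg (μ := haarAddCircle)
      (fourier_add_half_inv_index hij one_pos)

lemma fmul (m n : ℤ) : (fourier m : C(Ci, ℂ)) * fourier n = fourier (m + n) := by
  ext t
  rw [ContinuousMap.mul_apply, fourier_add]

lemma f0 : (fourier 0 : C(Ci, ℂ)) = 1 := by
  ext t
  simp

/-- cos (2 pi x) + sin (4 pi x) -/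
noncomputable def bC : C(Ci, ℂ) :=
  (1 / 2 : ℂ) • (fourier 1 + fourier (-1)) + (1 / (2 * Complex.I) : ℂ) • (fourier 2 - fourier (-2))

lemma bC_coe (x : ℝ) : bC (x : Ci) =
    ((Real.cos (2 * Real.pi * x) + Real.sin (4 * Real.pi * x) : ℝ) : ℂ) := by
  have e : ∀ n : ℤ, (fourier n : C(Ci, ℂ)) (x : Ci) = Complex.exp ((n * (2 * Real.pi * x) : ℝ) * Complex.I) := by
    intro n
    rw [fourier_coe_apply]
    congr 1
    push_cast
    ring
  simp only [bC, ContinuousMap.add_apply, ContinuousMap.smul_apply, ContinuousMap.sub_apply, e, smul_eq_mul]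
  rw [Complex.ofReal_add, Complex.ofReal_cos, Complex.ofReal_sin, Complex.cos, Complex.sin]
  have hI : Complex.I ≠ 0 := Complex.I_ne_zero
  have h1 : (((((1 : ℤ) : ℝ)) * (2 * Real.pi * x) : ℝ) : ℂ) * Complex.I = ((2 * Real.pi * x : ℝ) : ℂ) * Complex.I := by
    push_cast; ring
  have h2 : (((((-1 : ℤ) : ℝ)) * (2 * Real.pi * x) : ℝ) : ℂ) * Complex.I = -((2 * Real.pi * x : ℝ) : ℂ) * Complex.I := by
    push_cast; ring
  have h3 : (((((2 : ℤ) : ℝ)) * (2 * Real.pi * x) : ℝ) : ℂ) * Complex.I = ((4 * Real.pi * x : ℝ) : ℂ) * Complex.I := by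
    push_cast; ring
  have h4 : (((((-2 : ℤ) : ℝ)) * (2 * Real.pi * x) : ℝ) : ℂ) * Complex.I = -((4 * Real.pi * x : ℝ) : ℂ) * Complex.I := by
    push_cast; ring
  have h5 : (1 / (2 * Complex.I) : ℂ) = -Complex.I / 2 := by
    rw [one_div, mul_inv, Complex.inv_I]; ring
  rw [h1, h2, h3, h4, h5]
  ring

lemma bC_real (t : Ci) : ∃ y : ℝ, |y| ≤ 2 ∧ bC t = (y : ℂ) := by
  induction t using QuotientAddGroup.induction_on with
  | H x =>
    refine ⟨_, ?_, bC_coe x⟩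
    have h1 := Real.abs_cos_le_one (2 * Real.pi * x)
    have h2 := Real.abs_sin_le_one (4 * Real.pi * x)
    calc _ ≤ |Real.cos (2 * Real.pi * x)| + |Real.sin (4 * Real.pi * x)| := abs_add_le _ _
      _ ≤ 2 := by linarith

/-- the modulation -/
noncomputable def ψ (z : ℝ) : C(Ci, ℂ) :=
  ⟨fun t => Complex.exp (Complex.I * z * bC t), by fun_prop⟩

lemma ψ_apply (z : ℝ) (t : Ci) : ψ z t = Complex.exp (Complex.I * z * bC t) := rfl

lemma ψ_norm (z : ℝ) (t : Ci) : ‖ψ z t‖ = 1 := by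
  obtain ⟨y, _, hy⟩ := bC_real t
  rw [ψ_apply, hy, show Complex.I * (z : ℂ) * (y : ℂ) = ((z * y : ℝ) : ℂ) * Complex.I by push_cast; ring]
  exact Complex.norm_exp_ofReal_mul_I _

/-- Taylor polynomials -/
noncomputable def Tz (z : ℝ) (M : ℕ) : C(Ci, ℂ) :=
  ∑ m ∈ Finset.range M, ((Complex.I * z) ^ m / (m.factorial : ℂ)) • bC ^ m

lemma rem (z : ℝ) (M : ℕ) (t : Ci) : ‖(ψ z - Tz z M) t‖ ≤ (2 * |z|) ^ M * Real.exp (2 * |z|) := by
  obtain ⟨y, hy2, hy⟩ := bC_real t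
  have e1 : (Tz z M) t = ∑ m ∈ Finset.range M, (Complex.I * z * bC t) ^ m / (m.factorial : ℂ) := by
    rw [Tz, ContinuousMap.coe_sum, Finset.sum_apply]
    apply Finset.sum_congr rfl
    intro m _
    rw [ContinuousMap.smul_apply, ContinuousMap.pow_apply, smul_eq_mul, mul_pow]
    ring
  rw [ContinuousMap.sub_apply, ψ_apply, e1]
  have h := Complex.norm_exp_sub_sum_le_norm_mul_exp (Complex.I * z * bC t) M
  have hn : ‖Complex.I * z * bC t‖ ≤ 2 * |z| := by
    rw [hy, norm_mul, norm_mul, Complex.norm_I, one_mul, Complex.norm_real, Complex.norm_real,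
      Real.norm_eq_abs, Real.norm_eq_abs, mul_comm]
    exact mul_le_mul_of_nonneg_right hy2 (abs_nonneg _)
  refine h.trans ?_
  gcongr

/-- span of the characters of degree at most N -/
noncomputable def V (N : ℕ) : Submodule ℂ C(Ci, ℂ) :=
  Submodule.span ℂ {f | ∃ k : ℤ, k.natAbs ≤ N ∧ f = fourier k}

lemma fourier_mem (N : ℕ) (k : ℤ) (hk : k.natAbs ≤ N) : fourier k ∈ V N :=
  Submodule.subset_span ⟨k, hk, rfl⟩

lemma bC_mul (N : ℕ) (f : C(Ci, ℂ)) (hf : f ∈ V N) : bC * f ∈ V (N + 2) := by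
  rw [V] at hf
  induction hf using Submodule.span_induction with
  | mem f hf =>
    obtain ⟨k, hk, rfl⟩ := hf
    rw [bC, add_mul, smul_mul_assoc, smul_mul_assoc, add_mul, sub_mul, fmul, fmul, fmul, fmul]
    refine Submodule.add_mem _ (Submodule.smul_mem _ _ (Submodule.add_mem _ ?_ ?_))
      (Submodule.smul_mem _ _ (Submodule.sub_mem _ ?_ ?_)) <;>
    · apply fourier_mem
      omega
  | zero => rw [mul_zero]; exact Submodule.zero_mem _
  | add f g _ _ hf hg => rw [mul_add]; exact Submodule.add_mem _ hf hg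
  | smul a f _ hf => rw [mul_smul_comm]; exact Submodule.smul_mem _ _ hf

lemma bC_pow (m : ℕ) : bC ^ m ∈ V (2 * m) := by
  induction m with
  | zero => rw [pow_zero, ← f0]; exact fourier_mem _ _ (by simp)
  | succ m ih => rw [pow_succ']; exact bC_mul _ _ ih

lemma V_mono {M N : ℕ} (h : M ≤ N) : V M ≤ V N := by
  apply Submodule.span_mono
  rintro f ⟨k, hk, rfl⟩
  exact ⟨k, hk.trans h, rfl⟩

lemma L_V (n : ℤ) (N : ℕ) (hN : N < n.natAbs) (f : C(Ci, ℂ)) (hf : f ∈ V N) : L n f = 0 := by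
  rw [V] at hf
  induction hf using Submodule.span_induction with
  | mem f hf =>
    obtain ⟨k, hk, rfl⟩ := hf
    rw [L_fourier, if_neg]
    rintro rfl
    omega
  | zero => exact map_zero _
  | add f g _ _ hf hg => rw [map_add, hf, hg, add_zero]
  | smul a f _ hf => rw [map_smul, hf, smul_zero]

lemma L_ψ_bound (z : ℝ) (n : ℤ) : ‖L n (ψ z)‖ ≤ (2 * |z|) ^ ((n.natAbs + 1) / 2) * Real.exp (2 * |z|) := by
  have e : L n (ψ z) = L n (ψ z - Tz z ((n.natAbs + 1) / 2)) := by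
    rw [map_sub]
    have : L n (Tz z ((n.natAbs + 1) / 2)) = 0 := by
      rw [Tz, map_sum]
      apply Finset.sum_eq_zero
      intro m hm
      rw [Finset.mem_range] at hm
      rw [map_smul, L_V n (2 * m) (by omega) _ (bC_pow m), smul_zero]
    rw [this, sub_zero]
  rw [e]
  exact L_norm _ _ _ (rem z _)

lemma L_bC (n : ℤ) : L n bC = (1 / 2 : ℂ) * ((if 1 = n then 1 else 0) + (if -1 = n then 1 else 0)) +
    (1 / (2 * Complex.I) : ℂ) * ((if 2 = n then 1 else 0) - (if -2 = n then 1 else 0)) := by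
  rw [bC]
  simp only [map_add, map_smul, map_sub, L_fourier, smul_eq_mul]

lemma L1_b2 : L 1 (bC ^ 2) = 1 / (2 * Complex.I) := by
  have e : bC ^ 2 = (1 / 4 : ℂ) • (fourier 2 + fourier 0 + (fourier 0 + fourier (-2))) +
    (1 / (2 * Complex.I) : ℂ) • (fourier 3 + fourier 1 - (fourier (-1) + fourier (-3))) +
    (1 / (2 * Complex.I) : ℂ) ^ 2 • (fourier 4 - fourier 0 - (fourier 0 - fourier (-4))) := by
    rw [bC, pow_two]
    simp only [add_mul, sub_mul, mul_add, mul_sub, smul_mul_assoc, mul_smul_comm, fmul, smul_add, smul_sub,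
      smul_smul]
    norm_num
    module
  rw [e]
  simp only [map_add, map_smul, map_sub, L_fourier, smul_eq_mul]
  norm_num

lemma L1 (z : ℝ) : ‖L 1 (ψ z) - Complex.I * ((z / 2 + z ^ 2 / 4 : ℝ) : ℂ)‖ ≤
    (2 * |z|) ^ 3 * Real.exp (2 * |z|) := by
  have e : L 1 (ψ z) - Complex.I * ((z / 2 + z ^ 2 / 4 : ℝ) : ℂ) = L 1 (ψ z - Tz z 3) := by
    rw [map_sub]
    congr 1
    rw [Tz, Finset.sum_range_succ, Finset.sum_range_succ, Finset.sum_range_one]
    rw [map_add, map_add, map_smul, map_smul, map_smul, L1_b2]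
    have e0 : L 1 (bC ^ 0) = 0 := by rw [pow_zero, ← f0, L_fourier]; norm_num
    have e1 : L 1 (bC ^ 1) = 1 / 2 := by rw [pow_one, L_bC]; norm_num
    have h5 : (1 / (2 * Complex.I) : ℂ) = -Complex.I / 2 := by
      rw [one_div, mul_inv, Complex.inv_I]; ring
    rw [e0, e1, h5]
    simp only [Nat.factorial, smul_eq_mul]
    push_cast
    have hI2 : Complex.I ^ 3 = -Complex.I := Complex.I_pow_three
    linear_combination ((z : ℂ) ^ 2 / 4) * hI2
  rw [e]
  exact L_norm _ _ _ (rem z _)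

lemma L0 (z : ℝ) : ‖L 0 (ψ z) - 1‖ ≤ (2 * |z|) ^ 2 * Real.exp (2 * |z|) := by
  have e : L 0 (ψ z) - 1 = L 0 (ψ z - Tz z 2) := by
    rw [map_sub]
    congr 1
    rw [Tz, Finset.sum_range_succ, Finset.sum_range_one]
    rw [map_add, map_smul, map_smul]
    have e0 : L 0 (bC ^ 0) = 1 := by rw [pow_zero, ← f0, L_fourier]; norm_num
    have e1 : L 0 (bC ^ 1) = 0 := by rw [pow_one, L_bC]; norm_num
    rw [e0, e1]
    simp
  rw [e]
  exact L_norm _ _ _ (rem z _)

lemma bessel (z : ℝ) (F : Finset ℤ) : ∑ n ∈ F, ‖L n (ψ z)‖ ^ 2 ≤ 1 := by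
  have h := hasSum_sq_fourierCoeff (ContinuousMap.toLp (E := ℂ) 2 (haarAddCircle : Measure Ci) ℂ (ψ z))
  have e1 : ∫ t : Ci, ‖(ContinuousMap.toLp (E := ℂ) 2 (haarAddCircle : Measure Ci) ℂ (ψ z)) t‖ ^ 2
      ∂haarAddCircle = 1 := by
    have e2 : (fun t : Ci => ‖(ContinuousMap.toLp (E := ℂ) 2 (haarAddCircle : Measure Ci) ℂ (ψ z)) t‖ ^ 2)
        =ᵐ[haarAddCircle] fun _ => (1 : ℝ) := by
      filter_upwards [ContinuousMap.coeFn_toLp (p := 2) (𝕜 := ℂ) (haarAddCircle : Measure Ci) (ψ z)] with t ht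
      rw [ht, ψ_norm, one_pow]
    rw [integral_congr_ae e2]
    simp
  rw [e1] at h
  simp only [fourierCoeff_toLp] at h
  exact sum_le_hasSum F (fun n _ => by positivity) h

lemma exp_le_three {z : ℝ} (hz : |z| ≤ 1 / 2) : Real.exp (2 * |z|) ≤ 3 := by
  have h1 : Real.exp (2 * |z|) ≤ Real.exp 1 := Real.exp_le_exp.2 (by linarith)
  have h2 := Real.exp_one_lt_d9
  linarith

lemma L_geo (z : ℝ) (hz : |z| ≤ 1 / 8) (n : ℤ) : ‖L n (ψ z)‖ ≤ 3 * (1 / 2 : ℝ) ^ n.natAbs := by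
  have h := L_ψ_bound z n
  have h2 := exp_le_three (z := z) (by linarith)
  have h3 : (2 * |z|) ^ ((n.natAbs + 1) / 2) ≤ (1 / 4 : ℝ) ^ ((n.natAbs + 1) / 2) := by
    gcongr
    linarith
  have h4 : (1 / 4 : ℝ) ^ ((n.natAbs + 1) / 2) ≤ (1 / 2 : ℝ) ^ n.natAbs := by
    rw [show (1 / 4 : ℝ) = (1 / 2) ^ 2 by norm_num, ← pow_mul]
    apply pow_le_pow_of_le_one (by norm_num) (by norm_num)
    omega
  calc _ ≤ _ := h
    _ ≤ (1 / 2 : ℝ) ^ n.natAbs * 3 := mul_le_mul (h3.trans h4) h2 (by positivity) (by positivity)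
    _ = _ := by ring

lemma hasSum (z : ℝ) (hz : |z| ≤ 1 / 8) (x : ℝ) :
    HasSum (fun n : ℤ => L n (ψ z) * Complex.exp (2 * Real.pi * Complex.I * n * x)) (ψ z (x : Ci)) := by
  have hs : Summable (fourierCoeff (ψ z : Ci → ℂ)) := by
    apply Summable.of_norm_bounded (g := fun n : ℤ => 3 * (1 / 2 : ℝ) ^ n.natAbs)
    · apply Summable.mul_left
      apply Summable.of_nat_of_neg
      · simpa using summable_geometric_of_lt_one (by norm_num) (by norm_num : (2 : ℝ)⁻¹ < 1)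
      · simpa using summable_geometric_of_lt_one (by norm_num) (by norm_num : (2 : ℝ)⁻¹ < 1)
    · intro n
      exact L_geo z hz n
  have h := has_pointwise_sum_fourier_series_of_summable hs (x : Ci)
  convert! h using 1
  ext n
  rw [fourier_coe_apply, smul_eq_mul, L_apply]
  congr 2
  simp

lemma c1_est (z : ℝ) (hz : |z| ≤ 1 / 8) : |‖L 1 (ψ z)‖ ^ 2 - z ^ 2 / 4 - z ^ 3 / 4| ≤ 193 * z ^ 4 := by
  have h := L1 z
  have h2 := exp_le_three (z := z) (by linarith)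
  set A := L 1 (ψ z) with hA
  set w : ℝ := z / 2 + z ^ 2 / 4 with hw
  have h3 : ‖A - Complex.I * (w : ℂ)‖ ≤ 24 * |z| ^ 3 := by
    calc _ ≤ _ := h
      _ ≤ (2 * |z|) ^ 3 * 3 := by gcongr
      _ = _ := by ring
  have h4 : ‖Complex.I * (w : ℂ)‖ = |w| := by
    rw [norm_mul, Complex.norm_I, one_mul, Complex.norm_real, Real.norm_eq_abs]
  have h5 : |‖A‖ - (|w|)| ≤ 24 * |z| ^ 3 := by
    rw [← h4]
    exact (abs_norm_sub_norm_le _ _).trans h3
  have hzz : |z| ^ 2 = z ^ 2 := sq_abs z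
  have h6 : |w| ≤ |z| := by
    rw [hw]
    calc _ ≤ |z / 2| + |z ^ 2 / 4| := abs_add_le _ _
      _ = |z| / 2 + |z| * |z| / 4 := by
          rw [abs_div, abs_div, abs_two, abs_of_pos (by norm_num : (0 : ℝ) < 4), abs_pow, pow_two]
      _ ≤ |z| := by nlinarith [abs_nonneg z]
  have h7 : ‖A‖ ≤ |z| + 24 * |z| ^ 3 := by
    have := (abs_le.1 h5).2
    linarith
  have h8 : |‖A‖ ^ 2 - w ^ 2| ≤ 192 * z ^ 4 := by
    have e : ‖A‖ ^ 2 - w ^ 2 = (‖A‖ - |w|) * (‖A‖ + |w|) := by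
      rw [← sq_abs w]; ring
    rw [e, abs_mul, abs_of_nonneg (by positivity : 0 ≤ ‖A‖ + |w|)]
    have h9 : ‖A‖ + |w| ≤ 8 * |z| := by
      have : 24 * |z| ^ 3 ≤ 6 * |z| := by
        have h10 : |z| ^ 2 ≤ 1 / 64 := by
          calc |z| ^ 2 ≤ (1 / 8) ^ 2 := by gcongr
            _ = _ := by norm_num
        calc 24 * |z| ^ 3 = 24 * |z| ^ 2 * |z| := by ring
          _ ≤ 24 * (1 / 64) * |z| := by gcongr
          _ ≤ _ := by nlinarith [abs_nonneg z]
      linarith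
    calc _ ≤ (24 * |z| ^ 3) * (8 * |z|) := by gcongr
      _ = 192 * (|z| ^ 2) ^ 2 := by ring
      _ = _ := by rw [hzz]; ring
  have h9 : w ^ 2 = z ^ 2 / 4 + z ^ 3 / 4 + z ^ 4 / 16 := by rw [hw]; ring
  have h10 : 0 ≤ z ^ 4 := by positivity
  rw [abs_le] at h8 ⊢
  constructor <;> linarith [h8.1, h8.2]

lemma c0_est (z : ℝ) (hz : |z| ≤ 1 / 8) : 1 - 24 * z ^ 2 ≤ ‖L 0 (ψ z)‖ ^ 2 := by
  have h := L0 z
  have h2 := exp_le_three (z := z) (by linarith)
  have h3 : ‖L 0 (ψ z) - 1‖ ≤ 12 * z ^ 2 := by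
    calc _ ≤ _ := h
      _ ≤ (2 * |z|) ^ 2 * 3 := by gcongr
      _ = 12 * |z| ^ 2 := by ring
      _ = _ := by rw [sq_abs]
  have h4 : 1 - 12 * z ^ 2 ≤ ‖L 0 (ψ z)‖ := by
    have h5 : ‖(1 : ℂ)‖ - ‖L 0 (ψ z)‖ ≤ ‖(1 : ℂ) - L 0 (ψ z)‖ := norm_sub_norm_le _ _
    rw [norm_sub_rev, norm_one] at h5
    linarith
  have h6 : z ^ 2 ≤ 1 / 64 := by
    rw [← sq_abs]
    calc |z| ^ 2 ≤ (1 / 8) ^ 2 := by gcongr
      _ = _ := by norm_num
  nlinarith [sq_nonneg (z ^ 2)]

theorem main : S_Four := by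
  intro J K hK
  set x : ℝ := (J : ℝ) + 1 with hx
  have hx1 : 1 ≤ x := by rw [hx]; linarith [Nat.cast_nonneg (α := ℝ) J]
  set s : ℝ := 1 / (10000 * x ^ 4 * (K + 1)) with hs
  have hs0 : 0 < s := by rw [hs]; positivity
  have hsx : s * x ^ 4 * (K + 1) = 1 / 10000 := by
    rw [hs]; field_simp
  have hs1 : s * x ^ 4 ≤ 1 / 10000 := by
    have : 0 ≤ s * x ^ 4 * K := by positivity
    linarith
  have hs2 : K * (s * x ^ 4) ≤ 1 / 10000 := by
    have : 0 ≤ s * x ^ 4 := by positivity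
    linarith
  have hx4 : x ≤ x ^ 4 := by
    calc x = x ^ 1 := (pow_one x).symm
      _ ≤ x ^ 4 := pow_le_pow_right₀ hx1 (by norm_num)
  have hx3 : x ^ 3 ≤ x ^ 4 := pow_le_pow_right₀ hx1 (by norm_num)
  have hx2 : x ^ 2 ≤ x ^ 4 := pow_le_pow_right₀ hx1 (by norm_num)
  have hsx1 : s * x ≤ 1 / 10000 := le_trans (by gcongr) hs1
  have hs3 : s ≤ 1 / 10000 := le_trans (by nlinarith) hsx1
  have hj : ∀ j ∈ Jset J, |(j : ℝ)| ≤ x ∧ j ≠ 0 := by
    intro j hj
    rw [Jset, Finset.mem_erase, Finset.mem_Icc] at hj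
    refine ⟨?_, hj.1⟩
    rw [abs_le, hx]
    have h1 : ((-(J : ℤ) : ℤ) : ℝ) ≤ (j : ℝ) := by exact_mod_cast hj.2.1
    have h2 : (j : ℝ) ≤ ((J : ℤ) : ℝ) := by exact_mod_cast hj.2.2
    push_cast at h1 h2
    constructor <;> linarith
  have hz : ∀ j ∈ Jset J, |s * (j : ℝ)| ≤ 1 / 8 := by
    intro j hj'
    rw [abs_mul, abs_of_pos hs0]
    calc s * |(j : ℝ)| ≤ s * x := by gcongr; exact (hj j hj').1
      _ ≤ 1 / 10000 := hsx1
      _ ≤ 1 / 8 := by norm_num
  refine ⟨fun y => s / (2 * Real.pi) * (Real.cos (2 * Real.pi * y) + Real.sin (4 * Real.pi * y)), 3 * s,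
    fun j n => L n (ψ (s * j)), s ^ 3 / 4, 24 * s ^ 2 * x ^ 2, 3, 1 / 2, ?_, by positivity, ?_, by norm_num,
    by norm_num, by norm_num, ?_, ?_, ?_, ?_, ?_, by positivity, by positivity, ?_, ?_⟩
  · intro y
    simp only
    rw [show 2 * Real.pi * (y + 1) = 2 * Real.pi * y + 2 * Real.pi by ring,
      show 4 * Real.pi * (y + 1) = 4 * Real.pi * y + (2 : ℕ) * (2 * Real.pi) by push_cast; ring,
      Real.cos_add_two_pi, Real.sin_add_nat_mul_two_pi]
  · intro y y'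
    simp only
    have hpi := Real.pi_pos
    have h1 := Real.abs_cos_sub_cos_le (2 * Real.pi * y) (2 * Real.pi * y')
    have h2 := Real.abs_sin_sub_sin_le (4 * Real.pi * y) (4 * Real.pi * y')
    rw [← mul_sub, abs_mul, abs_of_pos (by positivity : 0 < 2 * Real.pi)] at h1
    rw [← mul_sub (4 * Real.pi), abs_mul (4 * Real.pi), abs_of_pos (by positivity : 0 < 4 * Real.pi)] at h2
    rw [← mul_sub, abs_mul, abs_of_pos (by positivity : 0 < s / (2 * Real.pi))]
    have h3 : |Real.cos (2 * Real.pi * y) + Real.sin (4 * Real.pi * y) -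
        (Real.cos (2 * Real.pi * y') + Real.sin (4 * Real.pi * y'))| ≤ 6 * Real.pi * |y - y'| := by
      calc _ = |(Real.cos (2 * Real.pi * y) - Real.cos (2 * Real.pi * y')) +
            (Real.sin (4 * Real.pi * y) - Real.sin (4 * Real.pi * y'))| := by congr 1; ring
        _ ≤ |Real.cos (2 * Real.pi * y) - Real.cos (2 * Real.pi * y')| +
            |Real.sin (4 * Real.pi * y) - Real.sin (4 * Real.pi * y')| := abs_add_le _ _
        _ ≤ _ := by linarith
    calc _ ≤ s / (2 * Real.pi) * (6 * Real.pi * |y - y'|) := by gcongr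
      _ = _ := by field_simp; ring
  · intro j hj' n
    exact L_geo _ (hz j hj') n
  · intro j hj' y
    have h := hasSum (s * j) (hz j hj') y
    convert! h using 1
    rw [ψ_apply, bC_coe]
    congr 1
    have hpi : (Real.pi : ℂ) ≠ 0 := by exact_mod_cast Real.pi_pos.ne'
    push_cast
    field_simp
  · intro j _ F
    exact bessel _ F
  · intro j hj'
    have h := c0_est (s * j) (hz j hj')
    have h2 : (s * (j : ℝ)) ^ 2 ≤ s ^ 2 * x ^ 2 := by
      rw [mul_pow]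
      gcongr s ^ 2 * ?_
      rw [← sq_abs]
      gcongr
      exact (hj j hj').1
    linarith
  · intro j hj1 j' hj2 hne
    have h1 := c1_est (s * j) (hz j hj1)
    have h2 := c1_est (s * j') (hz j' hj2)
    obtain ⟨hb1, hn1⟩ := hj j hj1
    obtain ⟨hb2, hn2⟩ := hj j' hj2
    have E : ∀ i : ℤ, |(i : ℝ)| ≤ x → 193 * (s * (i : ℝ)) ^ 4 ≤ s ^ 3 / 50 := by
      intro i hi
      have : (i : ℝ) ^ 4 ≤ x ^ 4 := by
        calc (i : ℝ) ^ 4 = |(i : ℝ)| ^ 4 := by rw [← abs_pow]; exact (abs_of_nonneg (by positivity)).symm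
          _ ≤ x ^ 4 := by gcongr
      calc 193 * (s * (i : ℝ)) ^ 4 = 193 * s ^ 3 * (s * (i : ℝ) ^ 4) := by ring
        _ ≤ 193 * s ^ 3 * (s * x ^ 4) := by gcongr
        _ ≤ 193 * s ^ 3 * (1 / 10000) := by gcongr
        _ ≤ _ := by nlinarith [pow_pos hs0 3]
    have E1 := E j hb1
    have E2 := E j' hb2
    have hs3p := pow_pos hs0 3
    have hs2p := pow_pos hs0 2
    set a1 := ‖L 1 (ψ (s * j))‖ ^ 2 with ha1
    set a2 := ‖L 1 (ψ (s * j'))‖ ^ 2 with ha2
    rw [abs_le] at h1 h2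
    have cub : ∀ i : ℤ, |(i : ℝ)| ≤ x → |(s * (i : ℝ)) ^ 3 / 4| ≤ s ^ 2 / 40000 := by
      intro i hi
      rw [abs_div, abs_pow, abs_mul, abs_of_pos hs0, abs_of_pos (by norm_num : (0 : ℝ) < 4)]
      have : (s * |(i : ℝ)|) ^ 3 ≤ s ^ 2 * (1 / 10000) := by
        calc (s * |(i : ℝ)|) ^ 3 = s ^ 2 * (s * |(i : ℝ)| ^ 3) := by ring
          _ ≤ s ^ 2 * (s * x ^ 3) := by gcongr
          _ ≤ s ^ 2 * (s * x ^ 4) := by gcongr
          _ ≤ _ := by gcongr
      linarith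
    have C1 := abs_le.1 (cub j hb1)
    have C2 := abs_le.1 (cub j' hb2)
    by_cases hsq : j ^ 2 = j' ^ 2
    · have hj'' : j' = -j := by
        rcases sq_eq_sq_iff_eq_or_eq_neg.1 hsq with h | h
        · exact absurd h hne
        · rw [h, neg_neg]
      have hcast : (j' : ℝ) = -(j : ℝ) := by rw [hj'']; push_cast; ring
      rw [hcast] at h2 E2
      have e1 : (s * -(j : ℝ)) ^ 2 = (s * j) ^ 2 := by ring
      have e2 : (s * -(j : ℝ)) ^ 3 = -(s * j) ^ 3 := by ring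
      rw [e1, e2] at h2
      rcases lt_or_gt_of_ne hn1 with hneg | hpos
      · have h3 : (j : ℝ) ≤ -1 := by
          have : j ≤ -1 := by omega
          exact_mod_cast this
        have h4 : (j : ℝ) ^ 3 ≤ -1 := by nlinarith [sq_nonneg ((j : ℝ) + 1), sq_nonneg (j : ℝ)]
        have h5 : (s * j) ^ 3 ≤ -s ^ 3 := by rw [mul_pow]; nlinarith
        rw [← neg_sub, abs_neg]
        apply le_trans _ (le_abs_self _)
        linarith [h1.1, h1.2, h2.1, h2.2]
      · have h3 : (1 : ℝ) ≤ j := by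
          have : 1 ≤ j := by omega
          exact_mod_cast this
        have h4 : (1 : ℝ) ≤ (j : ℝ) ^ 3 := one_le_pow₀ h3
        have h5 : s ^ 3 ≤ (s * j) ^ 3 := by rw [mul_pow]; nlinarith
        apply le_trans _ (le_abs_self _)
        linarith [h1.1, h1.2, h2.1, h2.2]
    · have hs4 : s ^ 3 ≤ s ^ 2 * (1 / 10000) := by
        calc s ^ 3 = s ^ 2 * s := by ring
          _ ≤ _ := by gcongr
      rcases lt_or_gt_of_ne hsq with hlt | hgt
      · have h3 : (j : ℝ) ^ 2 + 1 ≤ (j' : ℝ) ^ 2 := by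
          have : j ^ 2 + 1 ≤ j' ^ 2 := by omega
          exact_mod_cast this
        have h4 : (s * j) ^ 2 + s ^ 2 ≤ (s * j') ^ 2 := by
          rw [mul_pow, mul_pow]; nlinarith
        rw [← neg_sub, abs_neg]
        apply le_trans _ (le_abs_self _)
        linarith [h1.1, h1.2, h2.1, h2.2, C1.1, C1.2, C2.1, C2.2]
      · have h3 : (j' : ℝ) ^ 2 + 1 ≤ (j : ℝ) ^ 2 := by
          have : j' ^ 2 + 1 ≤ j ^ 2 := by omega
          exact_mod_cast this
        have h4 : (s * j') ^ 2 + s ^ 2 ≤ (s * j) ^ 2 := by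
          rw [mul_pow, mul_pow]; nlinarith
        apply le_trans _ (le_abs_self _)
        linarith [h1.1, h1.2, h2.1, h2.2, C1.1, C1.2, C2.1, C2.2]
  · calc K * (24 * s ^ 2 * x ^ 2) ^ 2 = 576 * s ^ 3 * (K * (s * x ^ 4)) := by ring
      _ ≤ 576 * s ^ 3 * (1 / 10000) := by gcongr
      _ ≤ _ := by nlinarith [pow_pos hs0 3]
  · calc K * (24 * s ^ 2 * x ^ 2) = 24 * s * (K * (s * x ^ 2)) := by ring
      _ ≤ 24 * s * (K * (s * x ^ 4)) := by gcongr
      _ ≤ 24 * (1 / 10000) * (1 / 10000) := by gcongr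
      _ ≤ 1 := by norm_num

end Pool.Agent.W655.SF3
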