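import Mathlib
import Pool.Agent.W744.SF.Stubs

set_option autoImplicit false

/-!
Decoding and choice of parameters: the finite decoding statement from the lacunary overlap bound, the
affinity estimate and the Fourier data.
-/

namespace Pool.Agent.W655.SF4

open Filter Topology Finset
open Pool.Agent.W744.SF

lemma prod_close {d : ℕ} (s : Finset (Fin d)) (ψ T : Fin d → ℂ) (e : ℝ) (he : 0 ≤ e)
    (h1 : ∀ i, ‖ψ i‖ = 1) (h2 : ∀ i, ‖ψ i - T i‖ ≤ e) :
    ‖∏ i ∈ s, ψ i - ∏ i ∈ s, T i‖ ≤ (1 + e) ^ s.card - 1 := by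
  classical
  induction s using Finset.induction_on with
  | empty => simp
  | insert a s ha ih =>
    rw [Finset.prod_insert ha, Finset.prod_insert ha, Finset.card_insert_of_notMem ha]
    have hT : ‖∏ i ∈ s, T i‖ ≤ (1 + e) ^ s.card := by
      rw [norm_prod]
      calc ∏ i ∈ s, ‖T i‖ ≤ ∏ i ∈ s, (1 + e) := by
            apply Finset.prod_le_prod
            · intro i _; exact norm_nonneg _
            · intro i _
              have h3 := h2 i
              have h4 := h1 i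
              calc ‖T i‖ = ‖ψ i - (ψ i - T i)‖ := by rw [sub_sub_cancel]
                _ ≤ ‖ψ i‖ + ‖ψ i - T i‖ := norm_sub_le _ _
                _ ≤ 1 + e := by linarith
        _ = _ := by rw [Finset.prod_const]
    have hh : ψ a * ∏ i ∈ s, ψ i - T a * ∏ i ∈ s, T i
       = ψ a * (∏ i ∈ s, ψ i - ∏ i ∈ s, T i) + (ψ a - T a) * ∏ i ∈ s, T i := by ring
    rw [hh]
    calc _ ≤ ‖ψ a * (∏ i ∈ s, ψ i - ∏ i ∈ s, T i)‖ + ‖(ψ a - T a) * ∏ i ∈ s, T i‖ := norm_add_le _ _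
      _ ≤ 1 * ((1 + e) ^ s.card - 1) + e * (1 + e) ^ s.card := by
          rw [norm_mul, norm_mul, h1 a]
          gcongr
          exact h2 a
      _ = _ := by ring

lemma summable_geo (r : ℝ) (h0 : 0 ≤ r) (h1 : r < 1) : Summable (fun n : ℤ => r ^ n.natAbs) := by
  apply Summable.of_nat_of_neg
  · simpa using summable_geometric_of_lt_one h0 h1
  · simpa using summable_geometric_of_lt_one h0 h1

lemma trunc_close (c : ℤ → ℂ) (C r : ℝ) (hC : 0 ≤ C) (h0 : 0 ≤ r) (h1 : r < 1)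
    (hc : ∀ n : ℤ, ‖c n‖ ≤ C * (r ^ 2) ^ n.natAbs) (u : ℤ → ℂ) (hu : ∀ n, ‖u n‖ = 1) (z : ℂ)
    (hs : HasSum (fun n => c n * u n) z) (Y : ℕ) :
    ‖z - ∑ n ∈ Finset.Icc (-(Y:ℤ)) Y, c n * u n‖ ≤ C * r ^ Y * ∑' n : ℤ, r ^ n.natAbs := by
  set F := Finset.Icc (-(Y:ℤ)) Y with hF
  have hF1 : HasSum (fun n => if n ∈ F then c n * u n else 0) (∑ n ∈ F, c n * u n) := by
    have h : HasSum (fun n => if n ∈ F then c n * u n else 0) (∑ n ∈ F, if n ∈ F then c n * u n else 0) :=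
      hasSum_sum_of_ne_finset_zero (fun n hn => by simp [hn])
    rw [Finset.sum_congr rfl (fun n hn => by rw [if_pos hn])] at h
    exact h
  have h2 := hs.sub hF1
  have h3 : HasSum (fun n : ℤ => C * r ^ Y * r ^ n.natAbs) (C * r ^ Y * ∑' n : ℤ, r ^ n.natAbs) :=
    ((summable_geo r h0 h1).hasSum).mul_left _
  refine h2.norm_le_of_bounded h3 ?_
  intro n
  by_cases hn : n ∈ F
  · simp only [hn, if_true, sub_self, norm_zero]
    positivity
  · simp only [hn, if_false, sub_zero, norm_mul, hu, mul_one]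
    have hn2 : Y ≤ n.natAbs := by
      rw [hF, Finset.mem_Icc] at hn
      omega
    calc ‖c n‖ ≤ C * (r ^ 2) ^ n.natAbs := hc n
      _ = C * (r ^ n.natAbs * r ^ n.natAbs) := by rw [← pow_mul, two_mul, pow_add]
      _ ≤ C * (r ^ Y * r ^ n.natAbs) := by
          gcongr C * (?_ * _)
          exact pow_le_pow_of_le_one h0 h1.le hn2
      _ = _ := by ring

/-- the abstract decoding estimate -/
lemma decode {ι β : Type} [DecidableEq ι] (A : Finset ι) (j0 : ι) (hj0 : j0 ∈ A) (D : Finset β)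
    (zm : ι → β → ℝ) (W : ι → β → ℂ) (Φ : ι → ℂ) (hΦ : Φ j0 ≠ 0) (P : ι → ℝ → ℝ)
    (hP : ∀ j z, P j z = ∑ n ∈ D with zm j n = z, ‖W j n‖ ^ 2) (B R : ℝ)
    (h1 : ∀ j ∈ A, j ≠ j0 → ∑ z ∈ D.image (zm j0), Real.sqrt (P j0 z * P j z) ≤ B)
    (h2 : ∀ j ∈ A, j ≠ j0 → ∑ z ∈ D.image (zm j), Real.sqrt (P j z * P j0 z) ≤ B)
    (hR : ∀ j ∈ A, ‖Φ j / Φ j0‖ ^ 2 ≤ R) (hB : 0 ≤ B) (q : ℝ → ℂ)
    (hq1 : ∀ z, (∀ j ∈ A, P j z ≤ P j0 z) → q z = (Φ j0)⁻¹)
    (hq2 : ∀ z, (¬ ∀ j ∈ A, P j z ≤ P j0 z) → q z = 0) :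
    ∑ j ∈ A, ∑ n ∈ D, ‖q (zm j n) * Φ j * W j n - (if j = j0 then W j n else 0)‖ ^ 2
      ≤ A.card * ((1 + R) * B) := by
  classical
  have hP0 : ∀ j z, 0 ≤ P j z := by
    intro j z; rw [hP]; positivity
  have hR0 : 0 ≤ R := le_trans (by positivity) (hR j0 hj0)
  have key1 : ∑ n ∈ D, ‖q (zm j0 n) * Φ j0 * W j0 n - W j0 n‖ ^ 2 ≤ A.card * B := by
    have e1 : ∑ n ∈ D, ‖q (zm j0 n) * Φ j0 * W j0 n - W j0 n‖ ^ 2
        = ∑ z ∈ D.image (zm j0), ∑ n ∈ D with zm j0 n = z, ‖q (zm j0 n) * Φ j0 * W j0 n - W j0 n‖ ^ 2 :=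
      (Finset.sum_fiberwise_of_maps_to (fun n hn => Finset.mem_image_of_mem _ hn) _).symm
    rw [e1]
    have e2 : ∀ z ∈ D.image (zm j0), ∑ n ∈ D with zm j0 n = z, ‖q (zm j0 n) * Φ j0 * W j0 n - W j0 n‖ ^ 2
        ≤ ∑ j ∈ A.erase j0, Real.sqrt (P j0 z * P j z) := by
      intro z _
      by_cases hz : ∀ j ∈ A, P j z ≤ P j0 z
      · have : ∑ n ∈ D with zm j0 n = z, ‖q (zm j0 n) * Φ j0 * W j0 n - W j0 n‖ ^ 2 = 0 := by
          apply Finset.sum_eq_zero
          intro n hn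
          rw [Finset.mem_filter] at hn
          rw [hn.2, hq1 z hz, inv_mul_cancel₀ hΦ, one_mul, sub_self]
          simp
        rw [this]
        exact Finset.sum_nonneg fun j _ => Real.sqrt_nonneg _
      · have h3 : ∑ n ∈ D with zm j0 n = z, ‖q (zm j0 n) * Φ j0 * W j0 n - W j0 n‖ ^ 2 = P j0 z := by
          rw [hP]
          apply Finset.sum_congr rfl
          intro n hn
          rw [Finset.mem_filter] at hn
          rw [hn.2, hq2 z hz, zero_mul, zero_mul, zero_sub, norm_neg]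
        rw [h3]
        push Not at hz
        obtain ⟨j, hj, hlt⟩ := hz
        have hne : j ≠ j0 := by
          rintro rfl; exact lt_irrefl _ hlt
        calc P j0 z = Real.sqrt (P j0 z * P j0 z) := by rw [Real.sqrt_mul_self (hP0 _ _)]
          _ ≤ Real.sqrt (P j0 z * P j z) := by
              apply Real.sqrt_le_sqrt
              exact mul_le_mul_of_nonneg_left hlt.le (hP0 _ _)
          _ ≤ _ := Finset.single_le_sum (f := fun j => Real.sqrt (P j0 z * P j z))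
              (fun j _ => Real.sqrt_nonneg _) (Finset.mem_erase.2 ⟨hne, hj⟩)
    calc _ ≤ ∑ z ∈ D.image (zm j0), ∑ j ∈ A.erase j0, Real.sqrt (P j0 z * P j z) :=
          Finset.sum_le_sum e2
      _ = ∑ j ∈ A.erase j0, ∑ z ∈ D.image (zm j0), Real.sqrt (P j0 z * P j z) := Finset.sum_comm
      _ ≤ ∑ j ∈ A.erase j0, B := by
          apply Finset.sum_le_sum
          intro j hj
          exact h1 j (Finset.mem_of_mem_erase hj) (Finset.ne_of_mem_erase hj)
      _ = (A.erase j0).card * B := by rw [Finset.sum_const, nsmul_eq_mul]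
      _ ≤ A.card * B := by
          gcongr
          exact Finset.erase_subset _ _
  have key2 : ∀ j ∈ A, j ≠ j0 → ∑ n ∈ D, ‖q (zm j n) * Φ j * W j n‖ ^ 2 ≤ R * B := by
    intro j hj hne
    have e1 : ∑ n ∈ D, ‖q (zm j n) * Φ j * W j n‖ ^ 2
        = ∑ z ∈ D.image (zm j), ∑ n ∈ D with zm j n = z, ‖q (zm j n) * Φ j * W j n‖ ^ 2 :=
      (Finset.sum_fiberwise_of_maps_to (fun n hn => Finset.mem_image_of_mem _ hn) _).symm
    rw [e1]
    have e2 : ∀ z ∈ D.image (zm j), ∑ n ∈ D with zm j n = z, ‖q (zm j n) * Φ j * W j n‖ ^ 2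
        ≤ R * Real.sqrt (P j z * P j0 z) := by
      intro z _
      by_cases hz : ∀ j ∈ A, P j z ≤ P j0 z
      · have h3 : ∑ n ∈ D with zm j n = z, ‖q (zm j n) * Φ j * W j n‖ ^ 2 = ‖Φ j / Φ j0‖ ^ 2 * P j z := by
          rw [hP, Finset.mul_sum]
          apply Finset.sum_congr rfl
          intro n hn
          rw [Finset.mem_filter] at hn
          rw [hn.2, hq1 z hz, norm_mul, mul_pow, div_eq_mul_inv, mul_comm (Φ j)]
        rw [h3]
        calc ‖Φ j / Φ j0‖ ^ 2 * P j z ≤ R * P j z := mul_le_mul_of_nonneg_right (hR j hj) (hP0 _ _)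
          _ = R * Real.sqrt (P j z * P j z) := by rw [Real.sqrt_mul_self (hP0 _ _)]
          _ ≤ _ := by
              apply mul_le_mul_of_nonneg_left _ hR0
              apply Real.sqrt_le_sqrt
              exact mul_le_mul_of_nonneg_left (hz j hj) (hP0 _ _)
      · have : ∑ n ∈ D with zm j n = z, ‖q (zm j n) * Φ j * W j n‖ ^ 2 = 0 := by
          apply Finset.sum_eq_zero
          intro n hn
          rw [Finset.mem_filter] at hn
          rw [hn.2, hq2 z hz]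
          simp
        rw [this]
        positivity
    calc _ ≤ ∑ z ∈ D.image (zm j), R * Real.sqrt (P j z * P j0 z) := Finset.sum_le_sum e2
      _ = R * ∑ z ∈ D.image (zm j), Real.sqrt (P j z * P j0 z) := by rw [Finset.mul_sum]
      _ ≤ R * B := mul_le_mul_of_nonneg_left (h2 j hj hne) hR0
  rw [← Finset.add_sum_erase A _ hj0]
  have e3 : ∑ n ∈ D, ‖q (zm j0 n) * Φ j0 * W j0 n - (if j0 = j0 then W j0 n else 0)‖ ^ 2 ≤ A.card * B := by
    simpa using key1
  have e4 : ∑ j ∈ A.erase j0, ∑ n ∈ D, ‖q (zm j n) * Φ j * W j n - (if j = j0 then W j n else 0)‖ ^ 2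
      ≤ A.card * (R * B) := by
    calc _ ≤ ∑ j ∈ A.erase j0, R * B := by
          apply Finset.sum_le_sum
          intro j hj
          have hne := Finset.ne_of_mem_erase hj
          simp only [hne, if_false, sub_zero]
          exact key2 j (Finset.mem_of_mem_erase hj) hne
      _ = (A.erase j0).card * (R * B) := by rw [Finset.sum_const, nsmul_eq_mul]
      _ ≤ _ := by
          gcongr
          exact Finset.erase_subset _ _
  calc _ ≤ A.card * B + A.card * (R * B) := add_le_add e3 e4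
    _ = _ := by ring

lemma dot_mem {k Y : ℕ} (t : Fin k → ℝ) :
    (((Dg k Y ×ˢ Dg k Y) ×ˢ (Dg k Y ×ˢ Dg k Y)).image
      (fun p : ((Fin k → ℤ) × (Fin k → ℤ)) × ((Fin k → ℤ) × (Fin k → ℤ)) =>
        (dot t p.1.1 - dot t p.1.2) - (dot t p.2.1 - dot t p.2.2))).card ≤ (8 * Y + 1) ^ k := by
  have hsub : ((Dg k Y ×ˢ Dg k Y) ×ˢ (Dg k Y ×ˢ Dg k Y)).image
      (fun p : ((Fin k → ℤ) × (Fin k → ℤ)) × ((Fin k → ℤ) × (Fin k → ℤ)) =>
        (dot t p.1.1 - dot t p.1.2) - (dot t p.2.1 - dot t p.2.2)) ⊆ (Dg k (4 * Y)).image (dot t) := by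
    intro r hr
    rw [Finset.mem_image] at hr
    obtain ⟨p, hp, rfl⟩ := hr
    rw [Finset.mem_product, Finset.mem_product, Finset.mem_product] at hp
    obtain ⟨⟨h1, h2⟩, h3, h4⟩ := hp
    rw [Finset.mem_image]
    refine ⟨(p.1.1 - p.1.2) - (p.2.1 - p.2.2), ?_, ?_⟩
    · simp only [Dg, Fintype.mem_piFinset, Finset.mem_Icc] at h1 h2 h3 h4 ⊢
      intro l
      have a1 := h1 l
      have a2 := h2 l
      have a3 := h3 l
      have a4 := h4 l
      simp only [Pi.sub_apply]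
      push_cast
      constructor <;> linarith [a1.1, a1.2, a2.1, a2.2, a3.1, a3.2, a4.1, a4.2]
    · simp only [dot, Pi.sub_apply]
      rw [← Finset.sum_sub_distrib, ← Finset.sum_sub_distrib, ← Finset.sum_sub_distrib]
      apply Finset.sum_congr rfl
      intro l _
      push_cast
      ring
  calc _ ≤ ((Dg k (4 * Y)).image (dot t)).card := Finset.card_le_card hsub
    _ ≤ (Dg k (4 * Y)).card := Finset.card_image_le
    _ = (8 * Y + 1) ^ k := by
        simp only [Dg, Fintype.card_piFinset, Int.card_Icc, Finset.prod_const, Finset.card_univ,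
          Fintype.card_fin]
        congr 1
        push_cast
        omega

lemma dot_bd {k Y : ℕ} (t : Fin k → ℝ) (ht : ∀ l, 0 < t l) (n : Fin k → ℤ) (hn : n ∈ Dg k Y) :
    |dot t n| ≤ (∑ l, t l) * Y := by
  simp only [Dg, Fintype.mem_piFinset, Finset.mem_Icc] at hn
  calc |dot t n| ≤ ∑ l, |t l * n l| := Finset.abs_sum_le_sum_abs _ _
    _ ≤ ∑ l, t l * Y := by
        apply Finset.sum_le_sum
        intro l _
        rw [abs_mul, abs_of_pos (ht l)]
        apply mul_le_mul_of_nonneg_left _ (ht l).le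
        rw [abs_le]
        have := hn l
        constructor
        · have h := this.1; exact_mod_cast h
        · have h := this.2; exact_mod_cast h
    _ = _ := by rw [Finset.sum_mul]

/-- choice of parameters -/
lemma params (k : ℕ) (hk : 1 ≤ k) (w r C' N' ε : ℝ) (hw0 : 0 < w) (hw1 : w < 1) (hr0 : 0 ≤ r)
    (hr1 : r < 1) (hC' : 0 ≤ C') (hN : 0 ≤ N') (hε : 0 < ε) :
    ∃ Y : ℕ, 1 ≤ Y ∧ (1 + C' * r ^ Y) ^ ((((8 * Y + 1) ^ k) ^ 2) ^ 2) - 1 ≤ ε ∧
      N' * ((((8 * Y + 1) ^ k : ℕ) : ℝ) ^ (2 * ((8 * Y + 1) ^ k) ^ 2) *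
        w ^ ((((8 * Y + 1) ^ k) ^ 2) ^ 2)) ≤ ε ^ 2 := by
  -- first condition
  have t1 : Tendsto (fun Y : ℕ => (Y : ℝ) ^ (4 * k) * r ^ Y) atTop (𝓝 0) :=
    tendsto_pow_const_mul_const_pow_of_abs_lt_one (4 * k) (by rw [abs_of_nonneg hr0]; exact hr1)
  have t2 : Tendsto (fun Y : ℕ => Real.exp (C' * 9 ^ (4 * k) * ((Y : ℝ) ^ (4 * k) * r ^ Y))) atTop (𝓝 1) := by
    have := (t1.const_mul (C' * 9 ^ (4 * k)))
    rw [mul_zero] at this
    have h2 := (Real.continuous_exp.tendsto 0).comp this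
    rw [Real.exp_zero] at h2
    exact h2
  have e1 : ∀ᶠ Y : ℕ in atTop, Real.exp (C' * 9 ^ (4 * k) * ((Y : ℝ) ^ (4 * k) * r ^ Y)) < 1 + ε :=
    t2.eventually (gt_mem_nhds (by linarith))
  -- second condition
  have t3 : Tendsto (fun n : ℕ => (n : ℝ) * w ^ n) atTop (𝓝 0) :=
    tendsto_self_mul_const_pow_of_lt_one hw0.le hw1
  have t4 : Tendsto (fun Y : ℕ => ((8 * Y + 1) ^ k) ^ 2) atTop atTop := by
    apply tendsto_atTop_mono (f := fun Y : ℕ => Y) _ tendsto_id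
    intro Y
    have h1 : Y ≤ 8 * Y + 1 := by omega
    have h2 : 8 * Y + 1 ≤ (8 * Y + 1) ^ k := Nat.le_self_pow (by omega) _
    have h3 : (8 * Y + 1) ^ k ≤ ((8 * Y + 1) ^ k) ^ 2 := Nat.le_self_pow (by omega) _
    omega
  have t5 := t3.comp t4
  have e2 : ∀ᶠ Y : ℕ in atTop, ((((8 * Y + 1) ^ k) ^ 2 : ℕ) : ℝ) * w ^ (((8 * Y + 1) ^ k) ^ 2) < 1 :=
    t5.eventually (gt_mem_nhds one_pos)
  have t6 := t5.const_mul N'
  rw [mul_zero] at t6
  have e3 : ∀ᶠ Y : ℕ in atTop, N' * (((((8 * Y + 1) ^ k) ^ 2 : ℕ) : ℝ) * w ^ (((8 * Y + 1) ^ k) ^ 2)) < ε ^ 2 :=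
    t6.eventually (gt_mem_nhds (by positivity))
  obtain ⟨Y, hY1, h1, h2, h3⟩ := ((eventually_ge_atTop 1).and (e1.and (e2.and e3))).exists
  refine ⟨Y, hY1, ?_, ?_⟩
  · have hpos : 0 ≤ C' * r ^ Y := by positivity
    have h4 : (1 + C' * r ^ Y) ^ ((((8 * Y + 1) ^ k) ^ 2) ^ 2) ≤
        Real.exp (C' * 9 ^ (4 * k) * ((Y : ℝ) ^ (4 * k) * r ^ Y)) := by
      calc (1 + C' * r ^ Y) ^ ((((8 * Y + 1) ^ k) ^ 2) ^ 2)
          ≤ (Real.exp (C' * r ^ Y)) ^ ((((8 * Y + 1) ^ k) ^ 2) ^ 2) := by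
            gcongr
            rw [add_comm]
            exact Real.add_one_le_exp _
        _ = Real.exp (((((8 * Y + 1) ^ k) ^ 2) ^ 2 : ℕ) * (C' * r ^ Y)) := by
            rw [Real.exp_nat_mul]
        _ ≤ _ := by
            apply Real.exp_le_exp.2
            have h5 : ((((((8 * Y + 1) ^ k) ^ 2) ^ 2 : ℕ)) : ℝ) ≤ 9 ^ (4 * k) * (Y : ℝ) ^ (4 * k) := by
              rw [← mul_pow]
              push_cast
              rw [← pow_mul, ← pow_mul]
              have h6 : k * (2 * 2) = 4 * k := by ring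
              rw [h6]
              gcongr
              have h7 : (1 : ℝ) ≤ Y := by exact_mod_cast hY1
              linarith
            calc _ ≤ (9 ^ (4 * k) * (Y : ℝ) ^ (4 * k)) * (C' * r ^ Y) := by gcongr
              _ = _ := by ring
    linarith
  · set m := ((8 * Y + 1) ^ k) ^ 2 with hm
    have hm1 : 1 ≤ m := by
      rw [hm]; exact Nat.one_le_pow _ _ (Nat.one_le_pow _ _ (by omega))
    have h4 : ((((8 * Y + 1) ^ k : ℕ) : ℝ) ^ (2 * m) * w ^ (m ^ 2)) = ((m : ℝ) * w ^ m) ^ m := by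
      rw [mul_pow, ← pow_mul w, ← pow_two m, pow_mul, hm]
      push_cast
      ring_nf
    rw [h4]
    have h5 : ((m : ℝ) * w ^ m) ^ m ≤ (m : ℝ) * w ^ m := by
      apply pow_le_of_le_one (by positivity) h2.le (by omega)
    calc N' * ((m : ℝ) * w ^ m) ^ m ≤ N' * ((m : ℝ) * w ^ m) := mul_le_mul_of_nonneg_left h5 hN
      _ ≤ _ := h3.le

lemma norm_e (x : ℝ) : ‖Complex.exp (2 * Real.pi * Complex.I * x)‖ = 1 := by
  rw [show (2 * Real.pi * Complex.I * x : ℂ) = ((2 * Real.pi * x : ℝ) : ℂ) * Complex.I by push_cast; ring]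
  exact Complex.norm_exp_ofReal_mul_I _

theorem main : S_BC → S_Aff → S_Four → S_Main := by
  intro hBC hAff hFour k J φ ε hk hφ hε
  classical
  obtain ⟨g, Λ, c, a, b, C, ρ, hper, hΛ, hLip, hC, hρ0, hρ1, hcb, hsum, hBes, hc0, hsep, ha, hb, hKa, hKb⟩ :=
    hFour J (max (8 * (k : ℝ) ^ 2) (25 * k)) (lt_of_lt_of_le (by positivity) (le_max_right _ _))
  set μ : ℤ → ℤ → ℝ := fun j n => ‖c j n‖ ^ 2 with hμ
  set w : ℝ := max (1 - a ^ 2 / 32) (1 / 2) with hw
  have hw0 : 0 < w := lt_of_lt_of_le (by norm_num) (le_max_right _ _)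
  have hw1 : w < 1 := by
    rw [hw]; apply max_lt
    · have : 0 < a ^ 2 := by positivity
      linarith
    · norm_num
  set r : ℝ := Real.sqrt ρ with hr
  have hr0 : 0 ≤ r := Real.sqrt_nonneg _
  have hr1 : r < 1 := by rw [hr, Real.sqrt_lt' one_pos]; simpa using hρ1
  have hr2 : r ^ 2 = ρ := Real.sq_sqrt hρ0
  set Φ : (Fin k → ℤ) → ℂ := fun j => ∏ l, φ (j l) with hΦ
  have hΦ0 : ∀ j ∈ JK k J, Φ j ≠ 0 := by
    intro j hj
    rw [hΦ]
    apply Finset.prod_ne_zero_iff.2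
    intro l _
    exact hφ _ ((Fintype.mem_piFinset.1 hj) l)
  set R : ℝ := ∑ j ∈ JK k J, ∑ j' ∈ JK k J, ‖Φ j / Φ j'‖ ^ 2 with hR
  have hR0 : 0 ≤ R := by rw [hR]; positivity
  have hR1 : ∀ j ∈ JK k J, ∀ j' ∈ JK k J, ‖Φ j / Φ j'‖ ^ 2 ≤ R := by
    intro j hj j' hj'
    calc ‖Φ j / Φ j'‖ ^ 2 ≤ ∑ j' ∈ JK k J, ‖Φ j / Φ j'‖ ^ 2 :=
          Finset.single_le_sum (f := fun j' => ‖Φ j / Φ j'‖ ^ 2) (fun _ _ => by positivity) hj'
      _ ≤ _ := Finset.single_le_sum (f := fun j => ∑ j' ∈ JK k J, ‖Φ j / Φ j'‖ ^ 2)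
          (fun _ _ => by positivity) hj
  have hS0 : 0 ≤ ∑' n : ℤ, r ^ n.natAbs := tsum_nonneg fun n => by positivity
  obtain ⟨Y, hY, hp1, hp2⟩ := params k hk w r (C * ∑' n : ℤ, r ^ n.natAbs) ((JK k J).card * (1 + R)) ε
    hw0 hw1 hr0 hr1 (by positivity) (by positivity) hε
  set d : ℕ := (((8 * Y + 1) ^ k) ^ 2) ^ 2 with hd
  refine ⟨g, Λ, c, Y, d, hper, hΛ, hLip, ?_, hY, ?_, ?_⟩
  · rw [hd]; exact Nat.one_le_pow _ _ (Nat.one_le_pow _ _ (Nat.one_le_pow _ _ (by omega)))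
  · intro j hj v
    set ψ : Fin d → ℂ := fun i => Complex.exp (2 * Real.pi * Complex.I * j * g (v i)) with hψ
    set T : Fin d → ℂ := fun i => ∑ n ∈ Finset.Icc (-(Y : ℤ)) Y,
      c j n * Complex.exp (2 * Real.pi * Complex.I * n * v i) with hT
    have q1 : Complex.exp (2 * Real.pi * Complex.I * j * ∑ i, (g (v i) : ℂ)) = ∏ i, ψ i := by
      rw [hψ, ← Complex.exp_sum, Finset.mul_sum]
    have q2 : ∑ n ∈ Fintype.piFinset (fun _ : Fin d => Finset.Icc (-(Y : ℤ)) Y),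
        (∏ i, c j (n i)) * Complex.exp (2 * Real.pi * Complex.I * ∑ i, (n i : ℂ) * v i) = ∏ i, T i := by
      rw [hT, Finset.prod_univ_sum]
      apply Finset.sum_congr rfl
      intro n _
      rw [Finset.prod_mul_distrib, ← Complex.exp_sum, Finset.mul_sum]
      congr 2
      apply Finset.sum_congr rfl
      intro i _
      ring
    rw [q1, q2]
    have q3 := prod_close Finset.univ ψ T (C * r ^ Y * ∑' n : ℤ, r ^ n.natAbs) (by positivity) ?_ ?_
    · rw [Finset.card_univ, Fintype.card_fin] at q3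
      refine q3.trans ?_
      rw [show C * r ^ Y * ∑' n : ℤ, r ^ n.natAbs = (C * ∑' n : ℤ, r ^ n.natAbs) * r ^ Y by ring]
      exact hp1
    · intro i
      have := norm_e ((j : ℝ) * g (v i))
      rw [hψ]
      rw [← this]
      congr 2
      push_cast
      ring
    · intro i
      have := trunc_close (c j) C r hC hr0 hr1 (by intro n; rw [hr2]; exact hcb j hj n)
        (fun n => Complex.exp (2 * Real.pi * Complex.I * n * v i)) (by
          intro n
          have h := norm_e ((n : ℝ) * v i)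
          rw [← h]
          congr 2
          push_cast
          ring) (ψ i) (hsum j hj (v i)) Y
      exact this
  · intro ω hω hSep t ht ht0 hsmall θ j0 hj0
    set P : (Fin k → ℤ) → ℝ → ℝ := fun j z => PZ (Dg k Y) (dot t) (fun n => ∏ l, μ (j l) (n l)) d ω (θ j) z
      with hPdef
    set q : ℝ → ℂ := fun z => if ∀ j ∈ JK k J, P j z ≤ P j0 z then (Φ j0)⁻¹ else 0 with hq
    refine ⟨fun x => q (Int.fract x), ?_, ?_⟩
    · intro x y hxy
      simp only [hxy]
    · set B : ℝ := (((8 * Y + 1) ^ k : ℕ) : ℝ) ^ (2 * ((8 * Y + 1) ^ k) ^ 2) * w ^ d with hB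
      have hpair : ∀ j ∈ JK k J, ∀ j' ∈ JK k J, j ≠ j' →
          ∑ z ∈ (DD k Y d).image (fun n => Int.fract (θ j + ∑ i, ω i * dot t (n i))),
            Real.sqrt (P j z * P j' z) ≤ B := by
        intro j hj j' hj' hne
        have hmass : ∀ j ∈ JK k J, ∑ n ∈ Dg k Y, ∏ l, μ (j l) (n l) ≤ 1 := by
          intro j hj
          rw [Dg, ← Finset.prod_univ_sum (fun _ : Fin k => Finset.Icc (-(Y : ℤ)) Y) (fun l n => μ (j l) n)]
          apply Finset.prod_le_one
          · intro l _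
            exact Finset.sum_nonneg fun n _ => by rw [hμ]; positivity
          · intro l _
            exact hBes _ ((Fintype.mem_piFinset.1 hj) l) _
        have hnn : ∀ j : Fin k → ℤ, ∀ n ∈ Dg k Y, 0 ≤ ∏ l, μ (j l) (n l) := by
          intro j n _
          exact Finset.prod_nonneg fun l _ => by rw [hμ]; positivity
        have hK1 : 8 * (k : ℝ) ^ 2 * b ^ 2 ≤ a :=
          le_trans (mul_le_mul_of_nonneg_right (le_max_left _ _) (by positivity)) hKa
        have hK2 : (k : ℝ) * b ≤ 1 / 25 := by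
          have : 25 * (k : ℝ) * b ≤ 1 :=
            le_trans (mul_le_mul_of_nonneg_right (le_max_right _ _) hb) hKb
          linarith
        exact hBC (Fin k → ℤ) (Dg k Y) (dot t) (fun n => ∏ l, μ (j l) (n l)) (fun n => ∏ l, μ (j' l) (n l))
          d ω w (θ j) (θ j') ((∑ l, t l) * Y) ((8 * Y + 1) ^ k) (hnn j) (hnn j') (hmass j hj) (hmass j' hj')
          (fun n hn => dot_bd t ht0 n hn) hω hsmall hSep (dot_mem t) hw0.le hw1.le (fun δ =>
            le_trans (hAff k J Y μ a b hk hY (fun j n => by rw [hμ]; positivity)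
              (fun j hj => hBes j hj _) hc0 ha hb hK1 hK2 hsep t ht ht0 j hj j' hj' hne δ) (le_max_left _ _))
      have hPeq : ∀ j z, P j z = ∑ n ∈ DD k Y d with
          Int.fract (θ j + ∑ i, ω i * dot t (n i)) = z, ‖∏ i, ∏ l, c (j l) (n i l)‖ ^ 2 := by
        intro j z
        simp only [hPdef, PZ, DD, hμ]
        apply Finset.sum_congr rfl
        intro n _
        rw [norm_prod, ← Finset.prod_pow]
        apply Finset.prod_congr rfl
        intro i _
        rw [norm_prod, ← Finset.prod_pow]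
      have hfin := decode (JK k J) j0 hj0 (DD k Y d)
        (fun j n => Int.fract (θ j + ∑ i, ω i * dot t (n i))) (fun j n => ∏ i, ∏ l, c (j l) (n i l)) Φ
        (hΦ0 j0 hj0) P hPeq B R (fun j hj hne => hpair j0 hj0 j hj hne.symm)
        (fun j hj hne => hpair j hj j0 hj0 hne) (fun j hj => hR1 j hj j0 hj0) (by rw [hB]; positivity) q
        (fun z hz => by rw [hq]; simp only; rw [if_pos hz]) (fun z hz => by rw [hq]; simp only; rw [if_neg hz])
      refine le_trans hfin ?_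
      rw [← mul_assoc]
      exact hp2

end Pool.Agent.W655.SF4
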