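import Pool.Agent.W982.AT.Defs

/-!
# The Alon–Tarsi number: a good orientation from a satisfying assignment (AT-C2)
-/

namespace Pool.Agent.W982.AT

section
variable {ι V : Type*} [Fintype ι] [DecidableEq ι] [DecidableEq V]

theorem two_le_od {E : ι → V × V} {o : ι → Bool} {v : V} {e e' : ι} (h : tl E o e = v)
    (h' : tl E o e' = v) (hne : e ≠ e') : 2 ≤ od E o v := by
  unfold od
  have : ({e, e'} : Finset ι).card = 2 := Finset.card_pair hne
  rw [← this]
  apply Finset.card_le_card
  intro x hx
  simp only [Finset.mem_insert, Finset.mem_singleton] at hx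
  rcases hx with rfl | rfl
  · simpa using h
  · simpa using h'

omit [DecidableEq ι] in
theorem sum_od' [Fintype V] (E : ι → V × V) (o : ι → Bool) :
    ∑ v, od E o v = Fintype.card ι := by
  unfold od
  rw [← Finset.card_univ (α := ι)]
  exact (Finset.card_eq_sum_card_fiberwise (f := tl E o) (s := Finset.univ)
    (t := Finset.univ) (by intro x _; simp)).symm

omit [DecidableEq ι] in
theorem od_eq_two_of_le [Fintype V] {E : ι → V × V} {o : ι → Bool}
    (hc : Fintype.card ι = 2 * Fintype.card V) (h : ∀ v, 2 ≤ od E o v) (v : V) :
    od E o v = 2 := by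
  have h1 : ∑ v : V, 2 = ∑ v, od E o v := by
    rw [sum_od' E o, hc]
    simp [mul_comm]
  have h2 := (Finset.sum_eq_sum_iff_of_le (fun v _ => h v)).1 h1 v (Finset.mem_univ v)
  exact h2.symm

end

theorem nx_surj {N : ℕ} (t : Fin N) : ∃ t' : Fin N, nx t' = t := by
  have hN := t.pos
  have ht := t.2
  by_cases h0 : (t : ℕ) = 0
  · refine ⟨⟨N - 1, by omega⟩, ?_⟩
    apply Fin.ext
    simp only [nx]
    have : N - 1 + 1 = N := by omega
    rw [this, Nat.mod_self]
    exact h0.symm
  · refine ⟨⟨t - 1, by omega⟩, ?_⟩
    apply Fin.ext
    simp only [nx]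
    have : (t : ℕ) - 1 + 1 = t := by omega
    rw [this, Nat.mod_eq_of_lt ht]

section
variable {X : Type} {m : ℕ}

/-- the value of the literal of an occurrence -/
def litv (v : Fin (m * 3) → X) (s : Fin (m * 3) → Bool) (τ : X → Bool) (t : Fin (m * 3)) : Bool :=
  !(xor (s t) (τ (v t)))

/-- the place paid by the row `r` of a clause -/
def plc (c : Fin 3) (l0 l1 l2 : Bool) (r : Fin 5) : Fin 3 :=
  match r with
  | 0 => c
  | 1 => if c = 0 then 2 else (if l0 then 0 else 1)
  | 2 => if c = 0 then (if l1 then 0 else 1) else 2
  | 3 => if c = 2 then (if l1 then 0 else 1) else 2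
  | 4 => if c = 2 then 2 else (if l2 then 0 else 1)

/-- The good orientation. -/
def gor (v : Fin (m * 3) → X) (s : Fin (m * 3) → Bool) (τ : X → Bool) (ch : Fin m → Fin 3) :
    Et (Cl X m) (Fin m × Fin 5) (Dr X m) (Fin (m * 3)) → Bool
  | .k i j => decide ((i : ℕ) / 2 = (j : ℕ) / 2)
  | .col _ => true
  | .row r a => decide (a ≠ plc (ch r.1) (litv v s τ (oc r.1 0)) (litv v s τ (oc r.1 1))
      (litv v s τ (oc r.1 2)) r.2)
  | .dir (.slot x _) => !τ x
  | .dir (.link x _) => !τ x
  | .dir (.ext t) => !τ (v t)
  | .mid t f => !(xor f (f && τ (v t)))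
  | .out t f h a => !(decide (a = τ (v t)) && decide (h = xor f (f && τ (v t))))

variable [DecidableEq X] [Fintype X]

theorem good_of_sat (v : Fin (m * 3) → X) (s : Fin (m * 3) → Bool)
    (hc : Fintype.card (Et (Cl X m) (Fin m × Fin 5) (Dr X m) (Fin (m * 3))) =
      2 * Fintype.card (Vt (Cl X m) (Fin m × Fin 5) (Fin (m * 3)))) (τ : X → Bool)
    (hτ : ∀ j : Fin m, ∃ a : Fin 3, τ (v (oc j a)) = s (oc j a)) :
    ∃ o, (fsys v s).Good o := by
  choose ch hch using hτ
  refine ⟨gor v s τ ch, ?_, ?_⟩
  · apply od_eq_two_of_le hc
    intro w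
    -- a column is the tail of its own edge
    have hcol : ∀ x, tl (fsys v s).E (gor v s τ ch) (.col x) = .col x := by
      intro x; simp [tl, gor, Sys.E]
    -- what the coupler pays
    have hcp : ∀ (t : Fin (m * 3)) (f : Bool),
        tl (fsys v s).E (gor v s τ ch) (.out t f (xor f (f && τ (v t))) (τ (v t))) =
          .col (if f then .pq t (xor (s t) (τ (v t))) else .occ t (τ (v t))) := by
      intro t f
      cases f <;> simp [tl, gor, Sys.E, fsys]
    have hrow : ∀ (j : Fin m) (r : Fin 5),
        tl (fsys v s).E (gor v s τ ch) (.row (j, r) (plc (ch j) (litv v s τ (oc j 0))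
          (litv v s τ (oc j 1)) (litv v s τ (oc j 2)) r)) =
          .col ((fsys v s).rc (j, r) (plc (ch j) (litv v s τ (oc j 0))
          (litv v s τ (oc j 1)) (litv v s τ (oc j 2)) r)) := by
      intro j r
      simp [tl, gor, Sys.E]
    match w with
    | .k false i =>
      fin_cases i
      · exact two_le_od (e := .k 0 0) (e' := .k 0 1) (by simp [tl, gor, Sys.E])
          (by simp [tl, gor, Sys.E]) (by simp)
      · exact two_le_od (e := .k 1 0) (e' := .k 1 1) (by simp [tl, gor, Sys.E])
          (by simp [tl, gor, Sys.E]) (by simp)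
      · exact two_le_od (e := .k 2 2) (e' := .k 2 3) (by simp [tl, gor, Sys.E])
          (by simp [tl, gor, Sys.E]) (by simp)
      · exact two_le_od (e := .k 3 2) (e' := .k 3 3) (by simp [tl, gor, Sys.E])
          (by simp [tl, gor, Sys.E]) (by simp)
    | .k true i =>
      fin_cases i
      · exact two_le_od (e := .k 2 0) (e' := .k 3 0) (by simp [tl, gor, Sys.E])
          (by simp [tl, gor, Sys.E]) (by simp)
      · exact two_le_od (e := .k 2 1) (e' := .k 3 1) (by simp [tl, gor, Sys.E])
          (by simp [tl, gor, Sys.E]) (by simp)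
      · exact two_le_od (e := .k 0 2) (e' := .k 1 2) (by simp [tl, gor, Sys.E])
          (by simp [tl, gor, Sys.E]) (by simp)
      · exact two_le_od (e := .k 0 3) (e' := .k 1 3) (by simp [tl, gor, Sys.E])
          (by simp [tl, gor, Sys.E]) (by simp)
    | .row (j, r) =>
      generalize hp : plc (ch j) (litv v s τ (oc j 0)) (litv v s τ (oc j 1))
        (litv v s τ (oc j 2)) r = p
      have h1 : p + 1 ≠ p := by clear hp; revert p; decide
      have h2 : p + 2 ≠ p := by clear hp; revert p; decide
      have h3 : p + 1 ≠ p + 2 := by clear hp; revert p; decide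
      refine two_le_od (e := .row (j, r) (p + 1)) (e' := .row (j, r) (p + 2)) ?_ ?_ ?_
      · simp [tl, gor, Sys.E, hp, h1]
      · simp [tl, gor, Sys.E, hp, h2]
      · simp
    | .br t f h =>
      by_cases hh : h = xor f (f && τ (v t))
      · refine two_le_od (e := .out t f h (!τ (v t))) (e' := .mid t f) ?_ ?_ (by simp)
        · cases hT : τ (v t) <;> simp [tl, gor, Sys.E, hT]
        · cases hT : τ (v t) <;> cases f <;> simp_all [tl, gor, Sys.E]
      · refine two_le_od (e := .out t f h (!τ (v t))) (e' := .out t f h (τ (v t))) ?_ ?_ ?_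
        · cases hT : τ (v t) <;> simp [tl, gor, Sys.E, hT]
        · cases hT : τ (v t) <;> cases f <;> cases h <;> simp_all [tl, gor, Sys.E]
        · cases hT : τ (v t) <;> simp
    | .col (.wire x t false) =>
      cases hx : τ x with
      | false =>
        refine two_le_od (e := .col (.wire x t false)) (e' := .dir (.slot x t)) (hcol _) ?_ (by simp)
        simp [tl, gor, Sys.E, fsys, hx]
      | true =>
        obtain ⟨t', ht'⟩ := nx_surj t
        by_cases hv : v t' = x
        · refine two_le_od (e := .col (.wire x t false)) (e' := .dir (.ext t')) (hcol _) ?_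
            (by simp)
          simp [tl, gor, Sys.E, fsys, hv, hx, ht']
        · refine two_le_od (e := .col (.wire x t false)) (e' := .dir (.link x t')) (hcol _) ?_
            (by simp)
          simp [tl, gor, Sys.E, fsys, hv, hx, ht']
    | .col (.wire x t true) =>
      cases hx : τ x with
      | false =>
        refine two_le_od (e := .col (.wire x t true)) (e' := .dir (.link x t)) (hcol _) ?_ (by simp)
        simp [tl, gor, Sys.E, fsys, hx]
      | true =>
        refine two_le_od (e := .col (.wire x t true)) (e' := .dir (.slot x t)) (hcol _) ?_ (by simp)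
        simp [tl, gor, Sys.E, fsys, hx]
    | .col (.occ t false) =>
      cases hx : τ (v t) with
      | false =>
        refine two_le_od (hcol _) ((hcp t false).trans ?_) (by simp)
        simp [hx]
      | true =>
        refine two_le_od (e := .col (.occ t false)) (e' := .dir (.link (v t) t)) (hcol _) ?_
          (by simp)
        simp [tl, gor, Sys.E, fsys, hx]
    | .col (.occ t true) =>
      cases hx : τ (v t) with
      | false =>
        refine two_le_od (e := .col (.occ t true)) (e' := .dir (.ext t)) (hcol _) ?_ (by simp)
        simp [tl, gor, Sys.E, fsys, hx]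
      | true =>
        refine two_le_od (hcol _) ((hcp t false).trans ?_) (by simp)
        simp [hx]
    | .col (.pq t h) =>
      by_cases hh : h = xor (s t) (τ (v t))
      · refine two_le_od (hcol _) ((hcp t true).trans ?_) (by simp)
        simp [hh]
      · have hL : h = litv v s τ t := by
          unfold litv
          revert hh
          cases h <;> cases s t <;> cases τ (v t) <;> simp
        obtain ⟨⟨j, a⟩, rfl⟩ := finProdFinEquiv.surjective t
        change h = litv v s τ (oc j a) at hL
        have hLc : litv v s τ (oc j (ch j)) = true := by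
          unfold litv
          rw [hch j]; simp
        change 2 ≤ od (fsys v s).E (gor v s τ ch) (Vt.col (Cl.pq (oc j a) h))
        by_cases hac : a = ch j
        · refine two_le_od (hcol _) ((hrow j 0).trans ?_) (by simp)
          rw [← hac] at hLc
          simp [plc, fsys, ← hac, hL, hLc]
        · fin_cases a
          · refine two_le_od (hcol _) ((hrow j 1).trans ?_) (by simp)
            have hc0 : ch j ≠ 0 := fun e => hac (by simp [e])
            simp only [Fin.zero_eta, Fin.isValue] at hL ⊢
            rw [hL]
            cases hl : litv v s τ (oc j 0) <;> simp [plc, fsys, hc0]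
          · by_cases hc0 : ch j = 0
            · refine two_le_od (hcol _) ((hrow j 2).trans ?_) (by simp)
              simp only [Fin.mk_one, Fin.isValue] at hL ⊢
              rw [hL]
              cases hl : litv v s τ (oc j 1) <;> simp [plc, fsys, hc0]
            · have hc2 : ch j = 2 := by
                revert hac hc0
                generalize ch j = c
                revert c
                decide
              refine two_le_od (hcol _) ((hrow j 3).trans ?_) (by simp)
              simp only [Fin.mk_one, Fin.isValue] at hL ⊢
              rw [hL]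
              cases hl : litv v s τ (oc j 1) <;> simp [plc, fsys, hc2]
          · refine two_le_od (hcol _) ((hrow j 4).trans ?_) (by simp)
            have hc0 : ch j ≠ 2 := fun e => hac (by simp [e])
            simp only [Fin.reduceFinMk, Fin.isValue] at hL ⊢
            rw [hL]
            cases hl : litv v s τ (oc j 2) <;> simp [plc, fsys, hc0]
    | .col (.z j false) =>
      by_cases hc0 : ch j = 0
      · refine two_le_od (hcol _) ((hrow j 1).trans ?_) (by simp)
        simp [plc, fsys, hc0]
      · refine two_le_od (hcol _) ((hrow j 2).trans ?_) (by simp)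
        simp [plc, fsys, hc0]
    | .col (.z j true) =>
      by_cases hc0 : ch j = 2
      · refine two_le_od (hcol _) ((hrow j 4).trans ?_) (by simp)
        simp [plc, fsys, hc0]
      · refine two_le_od (hcol _) ((hrow j 3).trans ?_) (by simp)
        simp [plc, fsys, hc0]
  · intro t
    simp only [typ, gor]
    cases τ (v t) <;> rfl

end

end Pool.Agent.W982.AT
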