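import Pool.Agent.W558.S2.Stms3

set_option autoImplicit false

universe u

open TensorProduct

namespace Pool.Agent.W655.Loc558

/-- the case of an algebra that is etale over a normal domain -/
theorem core (D S : Type u) [CommRing D] [IsDomain D] [IsIntegrallyClosed D] [CommRing S]
    [Algebra D S] [Algebra.Etale D S] (Q n : Ideal S) (hQ : Q ∈ minimalPrimes S)
    (hn : n.IsPrime) (hQn : Q ≤ n) : ∃ e, e ∉ n ∧ ∀ a ∈ Q, e * a = 0 := by
  let K := FractionRing D
  let T := S ⊗[D] K
  have hflat : Module.Flat D S := inferInstance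
  have hinj : Function.Injective (algebraMap S T) :=
    Algebra.TensorProduct.includeLeft_injective (R := D) (S := S) (A := S) (B := K)
      (IsFractionRing.injective D K)
  have hloc : IsLocalization (Algebra.algebraMapSubmonoid S (nonZeroDivisors D)) T :=
    IsLocalization.tensor (R := D) (S := S) (A := K) (nonZeroDivisors D)
  have hM : Algebra.algebraMapSubmonoid S (nonZeroDivisors D) ≤ nonZeroDivisors S := by
    intro x hx
    have hu : IsUnit (algebraMap S T x) := IsLocalization.map_units T ⟨x, hx⟩
    rw [mem_nonZeroDivisors_iff_right]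
    intro y hy
    apply hinj
    rw [map_zero]
    have h1 := congrArg (algebraMap S T) hy
    rw [map_mul, map_zero] at h1
    exact hu.mul_left_eq_zero.1 h1
  -- T is semisimple
  have : IsSemisimpleRing T := by
    have h1 : Algebra.Etale K (K ⊗[D] S) := inferInstance
    have h2 : IsReduced (K ⊗[D] S) := Algebra.FormallyUnramified.isReduced_of_field K _
    have h3 : Module.Finite K (K ⊗[D] S) := Algebra.FormallyUnramified.finite_of_free K _
    have h4 : IsArtinianRing (K ⊗[D] S) := IsArtinianRing.of_finite K _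
    have h5 : IsSemisimpleRing (K ⊗[D] S) := IsArtinianRing.isSemisimpleRing_of_isReduced _
    exact RingEquiv.isSemisimpleRing (Algebra.TensorProduct.comm D K S).toRingEquiv
  obtain ⟨e', he', hI⟩ := IsSemisimpleRing.ideal_eq_span_idempotent (Q.map (algebraMap S T))
  -- e' comes from S
  have hint : IsIntegral S e' := by
    refine ⟨Polynomial.X ^ 2 - Polynomial.X, ?_, ?_⟩
    · exact Polynomial.monic_X_pow_sub (R := S) (n := 2) (p := Polynomial.X)
        (lt_of_le_of_lt Polynomial.degree_X_le (by norm_num))
    · simp only [Polynomial.eval₂_sub, Polynomial.eval₂_pow, Polynomial.eval₂_X]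
      rw [sq, he'.eq, sub_self]
  obtain ⟨z, hz⟩ := (TensorProduct.toIntegralClosure_bijective_of_smooth (R := D) (S := S)
    (B := K)).2 ⟨e', hint⟩
  have hz' : (TensorProduct.toIntegralClosure D S K z : T) = e' := congrArg Subtype.val hz
  have hrange : ∀ z : S ⊗[D] integralClosure D K,
      ∃ s : S, algebraMap S T s = (TensorProduct.toIntegralClosure D S K z : T) := by
    intro z
    induction z with
    | zero => exact ⟨0, by simp⟩
    | add x y hx hy =>
      obtain ⟨s, hs⟩ := hx
      obtain ⟨t, ht⟩ := hy
      exact ⟨s + t, by rw [map_add, map_add, hs, ht]; rfl⟩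
    | tmul x y =>
      obtain ⟨d, hd⟩ := (IsIntegrallyClosed.isIntegral_iff (R := D) (K := K)).1 y.2
      refine ⟨d • x, ?_⟩
      show (d • x) ⊗ₜ[D] (1 : K) = x ⊗ₜ[D] (y : K)
      rw [TensorProduct.smul_tmul, ← hd, Algebra.smul_def, mul_one]
  obtain ⟨e1, he1⟩ := hrange z
  rw [hz'] at he1
  -- Q is the contraction of its extension
  have hQp : Q.IsPrime := hQ.1.1
  have hdisj : Disjoint (Algebra.algebraMapSubmonoid S (nonZeroDivisors D) : Set S) (Q : Set S) :=
    Set.disjoint_left.2 fun x hx hxQ => Set.disjoint_left.1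
      (Ideal.disjoint_nonZeroDivisors_of_mem_minimalPrimes hQ) hxQ (hM hx)
  have hcomap := IsLocalization.under_map_of_isPrime_disjoint
    (Algebra.algebraMapSubmonoid S (nonZeroDivisors D)) T hQp hdisj
  have he1Q : e1 ∈ Q := by
    rw [← hcomap, Ideal.mem_comap, he1, hI]
    exact Ideal.mem_span_singleton_self e'
  refine ⟨1 - e1, ?_, ?_⟩
  · intro h
    apply hn.ne_top
    rw [Ideal.eq_top_iff_one]
    have := n.add_mem h (hQn he1Q)
    rwa [sub_add_cancel] at this
  · intro a ha
    apply hinj
    rw [map_mul, map_zero, map_sub, map_one, he1]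
    have h1 : algebraMap S T a ∈ Q.map (algebraMap S T) := Ideal.mem_map_of_mem _ ha
    rw [hI, Ideal.mem_span_singleton] at h1
    obtain ⟨c, hc⟩ := h1
    rw [hc]
    calc (1 - e') * (e' * c) = (e' - e' * e') * c := by ring
      _ = 0 := by rw [he'.eq, sub_self, zero_mul]

theorem main : Pool.Agent.W558.S2_loc := by
  intro k R _ _ _ _ P m hP hm hPm
  have hPp : P.IsPrime := hP.1.1
  have hsm : Algebra.IsSmoothAt k m := by
    have h1 : (⟨m, hm⟩ : PrimeSpectrum R) ∈ Algebra.smoothLocus k R := by
      rw [Algebra.smoothLocus_eq_univ]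
      trivial
    exact h1
  obtain ⟨f, hfm, n, _, _, _⟩ :=
    Algebra.IsSmoothAt.exists_isStandardEtale_mvPolynomial (R := k) (p := m)
  have hfP : f ∉ P := fun h => hfm (hPm h)
  have : Algebra.Etale (MvPolynomial (Fin n) k) (Localization.Away f) := inferInstance
  have hdm : Disjoint (Submonoid.powers f : Set R) (m : Set R) :=
    (Ideal.disjoint_powers_iff_notMem_of_isPrime _).2 hfm
  have hdP : Disjoint (Submonoid.powers f : Set R) (P : Set R) :=
    (Ideal.disjoint_powers_iff_notMem_of_isPrime _).2 hfP
  have hmS : (m.map (algebraMap R (Localization.Away f))).IsPrime :=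
    IsLocalization.isPrime_of_isPrime_disjoint (.powers f) _ _ hm hdm
  have hPS : (P.map (algebraMap R (Localization.Away f))) ∈
      minimalPrimes (Localization.Away f) := by
    have h1 := IsLocalization.minimalPrimes_map (Submonoid.powers f) (Localization.Away f)
      (⊥ : Ideal R)
    rw [Ideal.map_bot] at h1
    have h2 : P.map (algebraMap R (Localization.Away f)) ∈
        (⊥ : Ideal (Localization.Away f)).minimalPrimes := by
      rw [h1, Set.mem_preimage,
        IsLocalization.under_map_of_isPrime_disjoint (Submonoid.powers f) _ hPp hdP]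
      exact hP
    exact h2
  obtain ⟨e, he, hea⟩ := core (MvPolynomial (Fin n) k) (Localization.Away f) _ _ hPS hmS
    (Ideal.map_mono hPm)
  obtain ⟨r, s, rfl⟩ := IsLocalization.exists_mk'_eq (Submonoid.powers f) e
  have hr : r ∉ m := by
    intro hr
    apply he
    rw [IsLocalization.mk'_mem_map_algebraMap_iff]
    exact ⟨1, Submonoid.one_mem _, by simpa using hr⟩
  have hN : ∀ a ∈ P, ∃ N : ℕ, f ^ N * (r * a) = 0 := by
    intro a ha
    have h1 := hea _ (Ideal.mem_map_of_mem (algebraMap R (Localization.Away f)) ha)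
    have h2 : algebraMap R (Localization.Away f) (r * a) = 0 := by
      have h3 := IsLocalization.mk'_spec (Localization.Away f) r s
      rw [map_mul, ← h3]
      calc _ = (IsLocalization.mk' (Localization.Away f) r s *
          algebraMap R (Localization.Away f) a) * algebraMap R (Localization.Away f) s := by ring
        _ = 0 := by rw [h1, zero_mul]
    obtain ⟨⟨c, N, hc⟩, h4⟩ := (IsLocalization.map_eq_zero_iff (Submonoid.powers f)
      (Localization.Away f) (r * a)).1 h2
    refine ⟨N, ?_⟩
    simp only at hc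
    rw [hc]
    exact h4
  have hnoeth : IsNoetherianRing R := Algebra.FiniteType.isNoetherianRing k R
  obtain ⟨G, hG⟩ := (isNoetherianRing_iff_ideal_fg R).1 hnoeth P
  have hGP : ∀ a ∈ G, a ∈ P := fun a ha => by
    rw [← hG]
    exact Submodule.subset_span ha
  choose! N hN' using hN
  refine ⟨f ^ (∑ a ∈ G, N a) * r, ?_, ?_⟩
  · exact hm.mul_notMem (fun h => hfm (hm.mem_of_pow_mem _ h)) hr
  · intro a ha
    rw [← hG] at ha
    refine Submodule.span_induction (p := fun a _ => f ^ (∑ a ∈ G, N a) * r * a = 0)
      ?_ ?_ ?_ ?_ ha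
    · intro x hx
      have h1 := hN' x (hGP x hx)
      have h2 : N x ≤ ∑ a ∈ G, N a := Finset.single_le_sum (fun _ _ => Nat.zero_le _) hx
      obtain ⟨d, hd⟩ := Nat.exists_eq_add_of_le h2
      rw [hd, pow_add]
      calc f ^ N x * f ^ d * r * x = f ^ d * (f ^ N x * (r * x)) := by ring
        _ = 0 := by rw [h1, mul_zero]
    · exact mul_zero _
    · intro x y _ _ hx hy
      rw [mul_add, hx, hy, add_zero]
    · intro c x _ hx
      rw [smul_eq_mul]
      calc f ^ (∑ a ∈ G, N a) * r * (c * x) = c * (f ^ (∑ a ∈ G, N a) * r * x) := by ring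
        _ = 0 := by rw [hx, mul_zero]

end Pool.Agent.W655.Loc558
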