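import Mathlib
import Pool.Agent.W893.SY.PerDefs

/-! SY-PERLOC: the local computation for the permanent. -/

set_option autoImplicit false

namespace Pool.Agent.W655.SYPerLoc

open Finset Pool.Agent.W893.SY

/-- bit masks of the rows -/
def tab (b : ZMod 2) (k : Fin 5) : ℕ :=
  if b = 0 then (![85, 102, 105, 90, 128] : Fin 5 → ℕ) k
  else (![86, 101, 106, 89, 128] : Fin 5 → ℕ) k

/-- the entries of the small matrix -/
def ent (b : ZMod 2) (k : Fin 5) (x : Fin 8) : Bool := Nat.testBit (tab b k) x.val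

/-- the difference of the two charges -/
def F (t : Fin 5 → Fin 8) : ℤ :=
  ∑ π : Equiv.Perm (Fin 5), ((if ∀ k, ent 0 k (t (π k)) = true then 1 else 0) -
    (if ∀ k, ent 1 k (t (π k)) = true then 1 else 0))

set_option maxRecDepth 100000 in
theorem F_val : ∀ x0 x1 x2 x3 x4 : Fin 8, x0 < x1 → x1 < x2 → x2 < x3 → x3 < x4 →
    F ![x0, x1, x2, x3, x4] =
      if (x0.val / 2 = 0 ∧ x1.val / 2 = 1 ∧ x2.val / 2 = 2 ∧ x3 = 6 ∧ x4 = 7)
      then 2 * (-1) ^ (x0.val % 2 + x1.val % 2 + x2.val % 2) else 0 := by decide +kernel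

theorem F_comp (t : Fin 5 → Fin 8) (ρ : Equiv.Perm (Fin 5)) : F (t ∘ ρ) = F t := by
  unfold F
  exact Equiv.sum_comp (Equiv.mulLeft ρ) (fun π : Equiv.Perm (Fin 5) =>
    ((if ∀ k, ent 0 k (t (π k)) = true then (1 : ℤ) else 0) -
    (if ∀ k, ent 1 k (t (π k)) = true then 1 else 0)))

/-- the vector of a colour choice -/
def vv (a : Fin 3 → Fin 2) : Fin 5 → Fin 8 :=
  ![⟨(a 0).val, by omega⟩, ⟨2 + (a 1).val, by omega⟩, ⟨4 + (a 2).val, by omega⟩, 6, 7]

theorem vv_mono (a : Fin 3 → Fin 2) : StrictMono (vv a) := by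
  revert a
  decide

local instance (b : ZMod 2) (k : Fin 5) (i : Fin 3) (a : Fin 5) : Decidable (agr b k i a) := by
  unfold agr
  infer_instance

variable {M N q : ℕ}

/-- the eight columns -/
def J (Φ : Inc M N) (c : Fin M) : Fin 8 → ColT M N q :=
  ![Sum.inl (nu Φ c 0, 0), Sum.inl (nu Φ c 0, 1), Sum.inl (nu Φ c 1, 0), Sum.inl (nu Φ c 1, 1),
    Sum.inl (nu Φ c 2, 0), Sum.inl (nu Φ c 2, 1), Sum.inr (Sum.inl (c, 0)),
    Sum.inr (Sum.inl (c, 1))]

theorem J_inj (Φ : Inc M N) (c : Fin M) (hc : Function.Injective (nu Φ c)) :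
    Function.Injective (J (q := q) Φ c) := by
  have h01 : nu Φ c 0 ≠ nu Φ c 1 := fun h => absurd (hc h) (by decide)
  have h02 : nu Φ c 0 ≠ nu Φ c 2 := fun h => absurd (hc h) (by decide)
  have h12 : nu Φ c 1 ≠ nu Φ c 2 := fun h => absurd (hc h) (by decide)
  intro x y h
  fin_cases x <;> fin_cases y <;> first | rfl | (exfalso; simp [J, h01, h02, h12, h01.symm, h02.symm, h12.symm] at h)

theorem entry_var (Φ : Inc M N) (c : Fin M) (hc : Function.Injective (nu Φ c)) (b : ZMod 2)
    (k : Fin 5) (i : Fin 3) (a : Fin 5) :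
    rowEntry (q := q) Φ b c k (Sum.inl (nu Φ c i, a)) = if agr b k i a then 1 else 0 := by
  unfold rowEntry
  simp only
  by_cases h : agr b k i a
  · rw [if_pos h, if_pos ⟨i, rfl, h⟩]
  · rw [if_neg h, if_neg]
    rintro ⟨j, hj, h'⟩
    apply h
    rw [← hc hj]
    exact h'

theorem rowEntry_J (Φ : Inc M N) (c : Fin M) (hc : Function.Injective (nu Φ c)) (b : ZMod 2)
    (k : Fin 5) (x : Fin 8) :
    rowEntry Φ b c k (J (q := q) Φ c x) = if ent b k x = true then 1 else 0 := by
  have h0 : ∀ (b : ZMod 2) (k : Fin 5), (agr b k 0 0 ↔ ent b k 0 = true) ∧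
    (agr b k 0 1 ↔ ent b k 1 = true) ∧ (agr b k 1 0 ↔ ent b k 2 = true) ∧
    (agr b k 1 1 ↔ ent b k 3 = true) ∧ (agr b k 2 0 ↔ ent b k 4 = true) ∧
    (agr b k 2 1 ↔ ent b k 5 = true) ∧ (k ≠ 4 ↔ ent b k 6 = true) ∧
    (k = 4 ↔ ent b k 7 = true) := by decide
  obtain ⟨e0, e1, e2, e3, e4, e5, e6, e7⟩ := h0 b k
  fin_cases x
  · exact (entry_var Φ c hc b k 0 0).trans (if_congr e0 rfl rfl)
  · exact (entry_var Φ c hc b k 0 1).trans (if_congr e1 rfl rfl)
  · exact (entry_var Φ c hc b k 1 0).trans (if_congr e2 rfl rfl)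
  · exact (entry_var Φ c hc b k 1 1).trans (if_congr e3 rfl rfl)
  · exact (entry_var Φ c hc b k 2 0).trans (if_congr e4 rfl rfl)
  · exact (entry_var Φ c hc b k 2 1).trans (if_congr e5 rfl rfl)
  · show rowEntry Φ b c k (Sum.inr (Sum.inl (c, 0))) = if ent b k 6 = true then 1 else 0
    unfold rowEntry
    apply if_congr _ rfl rfl
    rw [← e6]
    simp
  · show rowEntry Φ b c k (Sum.inr (Sum.inl (c, 1))) = if ent b k 7 = true then 1 else 0
    unfold rowEntry
    apply if_congr _ rfl rfl
    rw [← e7]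
    simp

/-- outside the eight columns all entries vanish -/
theorem rowEntry_out (Φ : Inc M N) (c : Fin M) (b : ZMod 2) (k : Fin 5) (y : ColT M N q)
    (hy : ∀ x, J Φ c x ≠ y) : rowEntry Φ b c k y = 0 := by
  rcases y with ⟨e, a⟩ | ⟨c', j⟩ | z
  · unfold rowEntry
    simp only
    rw [if_neg]
    rintro ⟨i, hi, h⟩
    subst hi
    unfold agr at h
    rcases h.2 with ⟨ha, -⟩ | ⟨ha, -⟩
    · subst ha
      fin_cases i
      · exact hy 0 rfl
      · exact hy 2 rfl
      · exact hy 4 rfl
    · subst ha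
      fin_cases i
      · exact hy 1 rfl
      · exact hy 3 rfl
      · exact hy 5 rfl
  · unfold rowEntry
    simp only
    rw [if_neg]
    rintro ⟨hc, h⟩
    subst hc
    rcases h with ⟨hj, -⟩ | ⟨hj, -⟩
    · subst hj; exact hy 6 rfl
    · subst hj; exact hy 7 rfl
  · rfl

theorem colSet_eq (Φ : Inc M N) (c : Fin M) (a : Fin 3 → Fin 2) :
    colSet (q := q) Φ c a = J Φ c '' Set.range (vv a) := by
  have hJ : ∀ (i : Fin 3) (u : Fin 2), J (q := q) Φ c ⟨2 * i.val + u.val, by omega⟩ =
      Sum.inl (nu Φ c i, Fin.castLE (by norm_num) u) := by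
    intro i u
    fin_cases i <;> fin_cases u <;> rfl
  have e0 : vv a 0 = ⟨2 * (0 : Fin 3).val + (a 0).val, by omega⟩ := by
    simp [vv]
  have e1 : vv a 1 = ⟨2 * (1 : Fin 3).val + (a 1).val, by omega⟩ := by
    simp [vv]
  have e2 : vv a 2 = ⟨2 * (2 : Fin 3).val + (a 2).val, by omega⟩ := by
    simp [vv]
  ext y
  unfold colSet
  constructor
  · rintro (⟨i, rfl⟩ | h)
    · simp only
      rw [← hJ i (a i)]
      refine ⟨_, ?_, rfl⟩
      fin_cases i
      · exact ⟨0, e0⟩
      · exact ⟨1, e1⟩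
      · exact ⟨2, e2⟩
    · rcases h with h | h
      · rw [h]; exact ⟨6, ⟨3, rfl⟩, rfl⟩
      · rw [h]; exact ⟨7, ⟨4, rfl⟩, rfl⟩
  · rintro ⟨x, ⟨i, rfl⟩, rfl⟩
    fin_cases i
    · left
      refine ⟨0, ?_⟩
      show _ = J Φ c (vv a 0)
      rw [e0, hJ]
    · left
      refine ⟨1, ?_⟩
      show _ = J Φ c (vv a 1)
      rw [e1, hJ]
    · left
      refine ⟨2, ?_⟩
      show _ = J Φ c (vv a 2)
      rw [e2, hJ]
    · right; left; rfl
    · right; right; rfl

theorem Eloc_J (Φ : Inc M N) (c : Fin M) (hc : Function.Injective (nu Φ c)) (t : Fin 5 → Fin 8) :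
    Eloc (q := q) Φ c (J Φ c ∘ t) = (F t : ℚ) := by
  unfold Eloc F
  push_cast
  apply Finset.sum_congr rfl
  intro π _
  have h : ∀ b : ZMod 2, ∏ k, rowEntry Φ b c k ((J (q := q) Φ c ∘ t) (π k)) =
      if ∀ k, ent b k (t (π k)) = true then 1 else 0 := by
    intro b
    simp only [Function.comp_apply, rowEntry_J Φ c hc]
    rw [Finset.prod_ite_zero]
    simp
  rw [h 0, h 1]

theorem main : S_perloc := by
  intro M N q Φ c τ hc hτ
  by_cases hr : ∀ k, ∃ x, J Φ c x = τ k
  · choose t ht using hr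
    have hτt : τ = J Φ c ∘ t := funext fun k => (ht k).symm
    have htinj : Function.Injective t := by
      intro k l h
      apply hτ
      rw [← ht k, ← ht l, h]
    set s := t ∘ Tuple.sort t with hs
    have hsm : StrictMono s :=
      (Tuple.monotone_sort t).strictMono_of_injective (htinj.comp (Tuple.sort t).injective)
    have hFs : F t = F s := (F_comp t (Tuple.sort t)).symm
    have hsv : s = ![s 0, s 1, s 2, s 3, s 4] := by
      ext k
      fin_cases k <;> rfl
    have hval := F_val (s 0) (s 1) (s 2) (s 3) (s 4) (hsm (by decide)) (hsm (by decide))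
      (hsm (by decide)) (hsm (by decide))
    rw [← hsv] at hval
    have hrange : Set.range τ = J Φ c '' Set.range s := by
      rw [hτt, hs, Set.range_comp, (Tuple.sort t).surjective.range_comp]
    rw [hτt, Eloc_J Φ c hc, ← hτt, hFs]
    constructor
    · intro h
      rw [hval, if_neg]
      · norm_num
      · rintro ⟨h0, h1, h2, h3, h4⟩
        apply h ![⟨(s 0).val % 2, by omega⟩, ⟨(s 1).val % 2, by omega⟩, ⟨(s 2).val % 2, by omega⟩]
        rw [hrange, colSet_eq]
        congr 2
        funext k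
        fin_cases k
        · apply Fin.ext
          simp [vv]
          omega
        · apply Fin.ext
          simp [vv]
          omega
        · apply Fin.ext
          simp [vv]
          omega
        · exact h3
        · exact h4
    · intro a ha
      have hsa : s = vv a := by
        rw [hrange, colSet_eq] at ha
        have h1 := (J_inj (q := q) Φ c hc).image_injective ha
        exact (StrictMono.range_inj hsm (vv_mono a)).1 h1
      rw [hsa] at hval
      rw [hsa, hval]
      rw [Fin.sum_univ_three]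
      have h0 := (a 0).2
      have h1 := (a 1).2
      have h2 := (a 2).2
      rw [if_pos]
      · have e0 : ((vv a) 0).val % 2 = (a 0).val := by
          simp [vv]
          omega
        have e1 : ((vv a) 1).val % 2 = (a 1).val := by
          simp [vv]
          omega
        have e2 : ((vv a) 2).val % 2 = (a 2).val := by
          simp [vv]
          omega
        rw [e0, e1, e2]
        push_cast
        rfl
      · refine ⟨?_, ?_, ?_, rfl, rfl⟩
        · simp [vv]
          omega
        · simp [vv]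
          omega
        · simp [vv]
          omega
  · push Not at hr
    obtain ⟨k0, hk0⟩ := hr
    constructor
    · intro _
      unfold Eloc
      apply Finset.sum_eq_zero
      intro π _
      have h : ∀ b : ZMod 2, ∏ k, rowEntry Φ b c k (τ (π k)) = 0 := by
        intro b
        apply Finset.prod_eq_zero (Finset.mem_univ (π⁻¹ k0))
        apply rowEntry_out
        intro x hx
        apply hk0 x
        rw [hx]
        exact congrArg τ (π.apply_symm_apply k0)
      rw [h 0, h 1, sub_zero]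
    · intro a ha
      exfalso
      have h1 : τ k0 ∈ Set.range τ := ⟨k0, rfl⟩
      rw [ha, colSet_eq] at h1
      obtain ⟨x, -, hx⟩ := h1
      exact hk0 x hx

end Pool.Agent.W655.SYPerLoc
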