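import Mathlib
import Pool.Agent.W893.SY.PerDefs

/-! SY-UPA: symmetrisation of an arithmetic circuit by copies. -/

set_option autoImplicit false

namespace Pool.Agent.W655.SYUpa

open Finset Pool.Agent.W893.SY

theorem val_inl {I R : Type} {s : ℕ} (C : Net I R s) (x : I → R) {g : Fin s} {i : I}
    (h : C.gate g = Sum.inl i) : C.val x g = x i := by
  rw [Net.val]
  split
  · rename_i j hj
    rw [h] at hj
    cases hj
    rfl
  · rename_i w f hj
    rw [h] at hj
    cases hj

theorem val_inr {I R : Type} {s : ℕ} (C : Net I R s) (x : I → R) {g : Fin s}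
    {w : Multiset (ℕ × Fin s)} {f : Multiset (ℕ × R) → R}
    (h : C.gate g = Sum.inr (w, f)) :
    C.val x g = f (w.map fun p => (p.1, C.val x p.2)) := by
  rw [Net.val]
  split
  · rename_i j hj
    rw [h] at hj
    cases hj
  · rename_i w' f' hj
    rw [h] at hj
    cases hj
    congr 1
    exact Multiset.attach_map_val' w (fun p => (p.1, C.val x p.2))

/-- numbering of the gates -/
noncomputable def E (G : Type) [Fintype G] (s : ℕ) :
    (G × Fin s) ⊕ Fin 3 ≃ Fin (Fintype.card G * s + 3) :=
  (Equiv.sumCongr ((Equiv.prodCongr (Fintype.equivFin G) (Equiv.refl _)).trans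
    finProdFinEquiv) (Equiv.refl _)).trans finSumFinEquiv

theorem E_inr (G : Type) [Fintype G] (s : ℕ) (i : Fin 3) :
    E G s (Sum.inr i) = Fin.natAdd _ i := by
  simp [E]

theorem E_inl (G : Type) [Fintype G] (s : ℕ) (a : G) (g : Fin s) :
    E G s (Sum.inl (a, g)) = Fin.castAdd 3 (finProdFinEquiv (Fintype.equivFin G a, g)) := by
  simp [E]

theorem E_lt (G : Type) [Fintype G] (s : ℕ) (a : G) {g h : Fin s} (hgh : h < g) :
    E G s (Sum.inl (a, h)) < E G s (Sum.inl (a, g)) := by
  rw [E_inl, E_inl, Fin.lt_def]
  simp only [Fin.val_castAdd, finProdFinEquiv_apply_val]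
  exact Nat.add_lt_add_right hgh _

theorem E_lt' (G : Type) [Fintype G] (s : ℕ) (a : G) (g : Fin s) (i : Fin 3) :
    E G s (Sum.inl (a, g)) < E G s (Sum.inr i) := by
  rw [E_inl, E_inr, Fin.lt_def]
  simp only [Fin.val_castAdd, Fin.val_natAdd]
  have := (finProdFinEquiv (Fintype.equivFin G a, g)).2
  omega

theorem E_lt'' (G : Type) [Fintype G] (s : ℕ) (i j : Fin 3) (h : i < j) :
    E G s (Sum.inr i) < E G s (Sum.inr j) := by
  rw [E_inr, E_inr, Fin.lt_def]
  simp only [Fin.val_natAdd]
  have := Fin.lt_def.1 h
  omega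

variable {I G : Type} [Group G] [Fintype G]

/-- the last three gates -/
noncomputable def gl (G : Type) [Fintype G] {s : ℕ} (C : Net I ℚ s) (i : Fin 3) :
    Multiset (ℕ × Fin (Fintype.card G * s + 3)) × (Multiset (ℕ × ℚ) → ℚ) :=
  if i = 0 then (univ.val.map (fun a : G => (0, E G s (Sum.inl (a, C.out)))), sumFn)
  else if i = 1 then (0, fun _ => (1 : ℚ) / Fintype.card G)
  else ((0, E G s (Sum.inr 0)) ::ₘ (0, E G s (Sum.inr 1)) ::ₘ 0, prodFn)

/-- the gates -/
noncomputable def gt (act : G → I → I) {s : ℕ} (C : Net I ℚ s) :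
    (G × Fin s) ⊕ Fin 3 → I ⊕ (Multiset (ℕ × Fin (Fintype.card G * s + 3)) ×
      (Multiset (ℕ × ℚ) → ℚ))
  | Sum.inr i => Sum.inr (gl G C i)
  | Sum.inl (a, g) => Sum.map (act a) (Prod.map (Multiset.map (Prod.map id
      (fun h => E G s (Sum.inl (a, h))))) id) (C.gate g)

/-- the circuit -/
noncomputable def up (act : G → I → I) {s : ℕ} (C : Net I ℚ s) :
    Net I ℚ (Fintype.card G * s + 3) where
  gate q := gt act C ((E G s).symm q)
  out := E G s (Sum.inr 2)
  acyclic := by
    intro q w f h p hp
    obtain ⟨o, rfl⟩ := (E G s).surjective q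
    rw [Equiv.symm_apply_apply] at h
    rcases o with ⟨a, g⟩ | i
    · simp only [gt] at h
      rcases hg : C.gate g with i | ⟨w0, f0⟩
      · rw [hg] at h
        cases h
      · rw [hg, Sum.map_inr, Prod.map_apply] at h
        simp only [Sum.inr.injEq, Prod.mk.injEq] at h
        rw [← h.1, Multiset.mem_map] at hp
        obtain ⟨p0, hp0, rfl⟩ := hp
        exact E_lt G s a (C.acyclic g w0 f0 hg p0 hp0)
    · simp only [gt, Sum.inr.injEq] at h
      have hw : w = (gl G C i).1 := by rw [h]
      rw [hw] at hp
      unfold gl at hp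
      split_ifs at hp with h0 h1
      · subst h0
        simp only [Multiset.mem_map] at hp
        obtain ⟨a, -, rfl⟩ := hp
        exact E_lt' G s a C.out 0
      · simp at hp
      · have h2 : i = 2 := by omega
        subst h2
        simp only [Multiset.mem_cons, Multiset.notMem_zero, or_false] at hp
        rcases hp with rfl | rfl
        · exact E_lt'' G s 0 2 (by decide)
        · exact E_lt'' G s 1 2 (by decide)

theorem up_gate (act : G → I → I) {s : ℕ} (C : Net I ℚ s) (o : (G × Fin s) ⊕ Fin 3) :
    (up act C).gate (E G s o) = gt act C o := by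
  show gt act C ((E G s).symm (E G s o)) = _
  rw [Equiv.symm_apply_apply]

theorem up_val (act : G → I → I) {s : ℕ} (C : Net I ℚ s) (x : I → ℚ) (a : G) (g : Fin s) :
    (up act C).val x (E G s (Sum.inl (a, g))) = C.val (x ∘ act a) g := by
  induction g using WellFoundedLT.induction with
  | ind g ih =>
    rcases hg : C.gate g with i | ⟨w, f⟩
    · rw [val_inl C _ hg, val_inl (up act C) x (i := act a i)]
      · rfl
      · rw [up_gate, gt, hg, Sum.map_inl]
    · rw [val_inr C _ hg, val_inr (up act C) x (w := w.map (Prod.map id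
        (fun h => E G s (Sum.inl (a, h))))) (f := f)]
      · rw [Multiset.map_map]
        congr 1
        refine Multiset.map_congr rfl fun p hp => ?_
        show (p.1, (up act C).val x (E G s (Sum.inl (a, p.2)))) = _
        rw [ih p.2 (C.acyclic g w f hg p hp)]
      · rw [up_gate, gt, hg, Sum.map_inr, Prod.map_apply, id]

theorem main : Pool.Agent.W893.SY.S_upa := by
  classical
  intro I G _ _ act s C _ hmul hAO
  refine ⟨up act C, ?_, ?_, ?_⟩
  · intro q w f h
    obtain ⟨o, rfl⟩ := (E G s).surjective q
    rw [up_gate] at h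
    rcases o with ⟨a, g⟩ | i
    · simp only [gt] at h
      rcases hg : C.gate g with i | ⟨w0, f0⟩
      · rw [hg] at h
        cases h
      · rw [hg, Sum.map_inr, Prod.map_apply] at h
        simp only [Sum.inr.injEq, Prod.mk.injEq] at h
        have h1 := hAO g w0 f0 hg
        rw [← h.2, ← h.1]
        rcases h1 with h1 | h1 | ⟨h1, h2⟩
        · exact Or.inl h1
        · exact Or.inr (Or.inl h1)
        · refine Or.inr (Or.inr ⟨?_, h2⟩)
          rw [h1, Multiset.map_zero]
    · simp only [gt, Sum.inr.injEq] at h
      unfold gl at h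
      split_ifs at h with h0 h1
      · left
        exact (congrArg Prod.snd h).symm
      · right; right
        exact ⟨(congrArg Prod.fst h).symm, _, (congrArg Prod.snd h).symm⟩
      · right; left
        exact (congrArg Prod.snd h).symm
  · intro b
    let β : Equiv.Perm ((G × Fin s) ⊕ Fin 3) :=
      Equiv.sumCongr (Equiv.prodCongr (Equiv.mulLeft b) (Equiv.refl _)) (Equiv.refl _)
    let α : Equiv.Perm (Fin (Fintype.card G * s + 3)) := (E G s).symm.trans (β.trans (E G s))
    have hα : ∀ o, α (E G s o) = E G s (β o) := by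
      intro o
      show E G s (β ((E G s).symm (E G s o))) = _
      rw [Equiv.symm_apply_apply]
    have hβ0 : ∀ i, β (Sum.inr i) = Sum.inr i := fun i => rfl
    have hβ1 : ∀ a g, β (Sum.inl (a, g)) = Sum.inl (b * a, g) := fun a g => rfl
    refine ⟨α, ?_, ?_⟩
    · intro q
      obtain ⟨o, rfl⟩ := (E G s).surjective q
      rw [hα, up_gate, up_gate]
      rcases o with ⟨a, g⟩ | i
      · rw [hβ1]
        simp only [gt]
        rcases hg : C.gate g with i | ⟨w0, f0⟩
        · rw [Sum.map_inl, Sum.map_inl, Sum.map_inl, hmul]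
          rfl
        · rw [Sum.map_inr, Sum.map_inr, Sum.map_inr, Prod.map_apply, Prod.map_apply,
            Prod.map_apply, Multiset.map_map]
          congr 2
          refine Multiset.map_congr rfl fun p _ => ?_
          show (p.1, E G s (Sum.inl (b * a, p.2))) = (p.1, α (E G s (Sum.inl (a, p.2))))
          rw [hα, hβ1]
      · rw [hβ0]
        simp only [gt]
        rw [Sum.map_inr]
        congr 1
        unfold gl
        split_ifs with h0 h1
        · rw [Prod.map_apply, id, Multiset.map_map]
          congr 1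
          have h1 : (univ : Finset G).val.map (fun a => b * a) = (univ : Finset G).val := by
            have := Multiset.map_univ_val_equiv (Equiv.mulLeft b)
            exact this
          conv_lhs => rw [← h1, Multiset.map_map]
          refine Multiset.map_congr rfl fun a _ => ?_
          show (0, E G s (Sum.inl (b * a, C.out))) = (0, α (E G s (Sum.inl (a, C.out))))
          rw [hα, hβ1]
        · rw [Prod.map_apply, id, Multiset.map_zero]
        · rw [Prod.map_apply, id, Multiset.map_cons, Multiset.map_cons, Multiset.map_zero]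
          congr 1
          rw [Prod.map_apply, Prod.map_apply, hα, hα, hβ0, hβ0]
          rfl
    · show α (E G s (Sum.inr 2)) = E G s (Sum.inr 2)
      rw [hα, hβ0]
  · intro x
    have h0 : (up act C).val x (E G s (Sum.inr 0)) = ∑ a, C.val (x ∘ act a) C.out := by
      rw [val_inr (up act C) x (w := (gl G C 0).1) (f := (gl G C 0).2)
        (by rw [up_gate]; rfl)]
      have e1 : gl G C 0 = (univ.val.map (fun a : G => (0, E G s (Sum.inl (a, C.out)))), sumFn) :=
        if_pos rfl
      rw [e1]
      simp only [sumFn, Multiset.map_map]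
      show (Multiset.map (fun a => (up act C).val x (E G s (Sum.inl (a, C.out)))) univ.val).sum = _
      simp_rw [up_val]
      rfl
    have h1 : (up act C).val x (E G s (Sum.inr 1)) = 1 / Fintype.card G := by
      rw [val_inr (up act C) x (w := (gl G C 1).1) (f := (gl G C 1).2)
        (by rw [up_gate]; rfl)]
      have e1 : gl (I := I) G C 1 = (0, fun _ => (1 : ℚ) / Fintype.card G) := by
        unfold gl
        rw [if_neg (by decide), if_pos rfl]
      rw [e1]
    have h2 : (up act C).val x (up act C).out = (up act C).val x (E G s (Sum.inr 0)) *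
        (up act C).val x (E G s (Sum.inr 1)) := by
      rw [val_inr (up act C) x (g := (up act C).out) (w := (gl G C 2).1) (f := (gl G C 2).2)
        (by show (up act C).gate (E G s (Sum.inr 2)) = _; rw [up_gate]; rfl)]
      have e1 : gl (I := I) G C 2 =
          ((0, E G s (Sum.inr 0)) ::ₘ (0, E G s (Sum.inr 1)) ::ₘ 0, prodFn) := by
        unfold gl
        rw [if_neg (by decide), if_neg (by decide)]
      rw [e1]
      simp [prodFn]
    rw [h2, h0, h1]
    ring

end Pool.Agent.W655.SYUpa
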